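import Pool.Agent.H6.FC.Lem
import Pool.Agent.H63.FI.BRG

/-!
# MP_7500ea_al, board cfp_modules, row EDG: degrees of the characters of the central extensions
-/

open scoped Classical ComplexConjugate

namespace Pool.Agent.H89.FC

open _root_.FI AMc AMt

theorem pf_EDG (MUL : T_MUL) (PSI : T_PSI) (Q2A : T_Q2A) (CRD : T_CRD) (ABL : T_ABL) :
    T_EDG := by
  intro q hq h7 M _ _ π hπ hker χ hχ
  haveI : Fintype M := Fintype.ofFinite M
  obtain ⟨ψ, -⟩ := PSI q hq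
  obtain ⟨hfin, -⟩ := CRD q hq h7
  obtain ⟨U, B, h2⟩ := Q2A q (PG q) (MonoidHom.id (PG q)) hq h7 Function.injective_id
    (fun x _ => ⟨x, rfl⟩)
  rw [Subgroup.comap_id] at h2
  let π' : M →* PG q := (PS q).subtype.comp (ψ.toMonoidHom.comp π)
  have hrange : π'.range = PS q := by
    ext x
    constructor
    · rintro ⟨m, rfl⟩
      exact (ψ (π m)).2
    · intro hx
      obtain ⟨y, hy⟩ := ψ.surjective ⟨x, hx⟩
      obtain ⟨m, hm⟩ := hπ y
      refine ⟨m, ?_⟩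
      show ((ψ (π m) : PS q) : PG q) = x
      rw [hm, hy]
  have hker' : π'.ker ≤ Subgroup.center M := by
    intro m hm
    apply hker
    rw [MonoidHom.mem_ker] at hm ⊢
    have h3 : ((ψ (π m) : PS q) : PG q) = 1 := hm
    have h4 : ψ (π m) = 1 := by
      apply Subtype.ext
      rw [h3]
      rfl
    exact (map_eq_one_iff ψ ψ.injective).1 h4
  obtain ⟨ν, hν, hov⟩ := FI.Lib.lE1 M π'.ker ⊤ le_top χ ((Pool.Agent.H63.FI.irr_top χ).2 hχ)
  obtain ⟨F, l, m1, m2, hF, hdeg, -, -, -, -, -, -, h00, -⟩ :=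
    MUL q (PG q) (PS q) U B h2 M π' hrange hker' ν hν
  have hχF : χ ∈ F := (hF χ).2 ⟨(Pool.Agent.H63.FI.irr_top χ).2 hχ, hov⟩
  by_cases h : m1 χ = 0 ∧ m2 χ = 0
  · left
    exact h00 χ hχF h.1 h.2
  · right
    have h3 : 1 ≤ m1 χ + m2 χ := by
      by_contra hcon
      exact h ⟨by omega, by omega⟩
    have h4 : (1 : ℝ) ≤ (m1 χ : ℝ) + m2 χ := by exact_mod_cast h3
    have h5 := hdeg χ hχF
    have h6 : (7 : ℝ) ≤ q := by exact_mod_cast h7
    have h7' : (0 : ℝ) ≤ (l χ : ℝ) := Nat.cast_nonneg _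
    nlinarith

end Pool.Agent.H89.FC

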