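import Pool.Agent.H95.FC.Targets

/-!
# The complete family, algebraic part: the twisted second moment of the `L`-functions
-/

set_option autoImplicit false

open MeasureTheory Set Filter NumberField
open scoped Real nonZeroDivisors Matrix MatrixGroups

namespace Pool.Agent.H89.FC

open Pool.Agent.H31.CN Pool.Agent.H89.FM Pool.Agent.H61.FM Pool.Agent.H95.FC

/-- the data for one pair of a discriminant and a conductor -/
structure Dat (K : Type) [Field K] [NumberField K] (σ : K →+* ℂ) (D f : ℕ) : Type 1 where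
  R : RS K D
  hR : R.σ = σ
  b : ClassGroup (𝓞 K) → ℤ × ℤ → (Ideal (𝓞 K))⁰
  T : ClassGroup (𝓞 K) → Finset (ℤ × ℤ)
  W : ClassGroup (𝓞 K) → ℤ × ℤ → ℤ × ℤ
  df : DF D f R b T W
  G : Type
  cg : CommGroup G
  fg : Finite G
  cl : Ideal (𝓞 K) → G
  rg : Pool.Agent.H95.CF.RG K f G cl

theorem dat_exists (hRSS : Pool.Agent.H95.FC.T_RSS) (hDFX : Pool.Agent.H95.FC.T_DFX)
    (hRGE : Pool.Agent.H37.CF.T_RGE) (K : Type) [Field K] [NumberField K] (σ : K →+* ℂ)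
    (D f : ℕ) (hIQ : IQ K D) (hf : 1 ≤ f) : Nonempty (Dat K σ D f) := by
  obtain ⟨R, hR⟩ := hRSS K D σ hIQ
  obtain ⟨-, b, T, W, h⟩ := hDFX K D f R hIQ hf
  obtain ⟨G, cg, fg, cl, rg⟩ := hRGE K f hf
  exact ⟨⟨R, hR, b, T, W, h, G, cg, fg, cl, rg⟩⟩

theorem cG_pos (m : ℕ) (t : ℝ) : 0 < cG m t := by
  unfold cG
  have h1 : (0 : ℝ) < (m : ℝ) + 1 := by positivity
  have h2 : 0 < Real.sqrt (((m : ℝ) + 1) ^ 2 + t ^ 2) := Real.sqrt_pos.2 (by positivity)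
  have h3 : (0 : ℝ) < (m.factorial : ℝ) := by exact_mod_cast Nat.factorial_pos m
  have := Real.pi_pos
  positivity

/-- one pair -/
theorem one_pair (hPVF : Pool.Agent.H95.FC.T_PVFc) {ε κ C1 C2 : ℝ} {k2 : ℕ} (hε : 0 < ε)
    (hκ0 : 0 < κ) (hκ : κ ≤ 1 / 8) (hC1 : 0 < C1) (hC2 : 0 < C2)
    (h1 : ∀ (K : Type) [Field K] [NumberField K] (D f : ℕ)
      (G : Type) [CommGroup G] [Finite G] (cl : Ideal (𝓞 K) → G), IQ K D → 1 ≤ f →
      Pool.Agent.H95.CF.RG K f G cl →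
      (Nat.card G : ℝ) ≤ C1 * ((D : ℝ) * (f : ℝ) ^ 2) ^ (1 / 2 + ε))
    (h2 : ∀ (m : ℕ) (s : ℂ), |s.re - 1 / 2| ≤ 1 / 8 →
      cG m s.im ≤ C2 * (1 + |s.im| + m) ^ k2 * ‖gM m s‖)
    (K : Type) [Field K] [NumberField K] (σ : K →+* ℂ) (D f : ℕ) (m : ℤ) (hIQ : IQ K D)
    (hf : 1 ≤ f) (E : Dat K σ D f) (Ψ : Finset (Ideal (𝓞 K) → ℂ))
    (F : (Ideal (𝓞 K) → ℂ) → ℂ → ℂ) (hF : ∀ ψ ∈ Ψ, RCh K σ f m ψ ∧ IsL ψ (F ψ)) (s : ℂ) (N : ℕ)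
    (α : ℕ → ℂ) (X : ℝ) (hX : 1 ≤ X) (hs : |s.re - 1 / 2| ≤ κ)
    (hD1 : X / 4 ≤ (D : ℝ) * (f : ℝ) ^ 2) (hD2 : (D : ℝ) * (f : ℝ) ^ 2 ≤ X) :
    ∑ ψ ∈ Ψ, ‖∑ n ∈ Sq N, α n * lc ψ n‖ ^ 2 * ‖F ψ s‖ ^ 2 ≤
      (20 * C1 * C2 ^ 2) * ((1 + |s.im| + |(m : ℝ)|) ^ (2 * k2) * (cG m.natAbs s.im ^ 2)⁻¹ *
        X ^ (κ + ε)) * ∑ c, ∑ V ∈ E.T c, ‖Bm m s α N (fl f (E.R.Q c) V (E.W c V))‖ ^ 2 := by
  have hs8 : |s.re - 1 / 2| ≤ 1 / 8 := hs.trans hκ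
  have hP := @hPVF K _ _ D f m hIQ hf E.R E.b E.T E.W E.df E.G E.cg E.fg E.cl E.rg Ψ F
    (by rw [E.hR]; exact hF) s N α hs8
  rw [← Finset.sum_mul] at hP
  set P : ℝ := ∑ ψ ∈ Ψ, ‖∑ n ∈ Sq N, α n * lc ψ n‖ ^ 2 * ‖F ψ s‖ ^ 2 with hPd
  set B : ℝ := ∑ c, ∑ V ∈ E.T c, ‖Bm m s α N (fl f (E.R.Q c) V (E.W c V))‖ ^ 2 with hB
  have hP0 : 0 ≤ P := Finset.sum_nonneg fun _ _ => by positivity
  have hB0 : 0 ≤ B := Finset.sum_nonneg fun _ _ => Finset.sum_nonneg fun _ _ => by positivity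
  have hX0 : 0 < X := by linarith
  set q : ℝ := (D : ℝ) * (f : ℝ) ^ 2 with hq
  have hq0 : (1 : ℝ) ≤ q := by
    have h3 : (1 : ℝ) ≤ D := by exact_mod_cast hIQ.pos
    have h4 : (1 : ℝ) ≤ f := by exact_mod_cast hf
    rw [hq]
    nlinarith [mul_le_mul h4 h4 zero_le_one (by positivity)]
  set T : ℝ := 1 + |s.im| + |(m : ℝ)| with hT
  have hT1 : 1 ≤ T := by
    have := abs_nonneg s.im
    have := abs_nonneg (m : ℝ)
    linarith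
  have hab : ((m.natAbs : ℕ) : ℝ) = |(m : ℝ)| := by
    rw [Nat.cast_natAbs, Int.cast_abs]
  have hg := h2 m.natAbs s hs8
  rw [hab] at hg
  have hc := cG_pos m.natAbs s.im
  set c2 : ℝ := cG m.natAbs s.im ^ 2 with hc2
  have hc20 : 0 < c2 := by positivity
  have hg2 : c2 ≤ C2 ^ 2 * T ^ (2 * k2) * ‖gM m.natAbs s‖ ^ 2 := by
    calc c2 ≤ (C2 * T ^ k2 * ‖gM m.natAbs s‖) ^ 2 := pow_le_pow_left₀ hc.le hg 2
      _ = _ := by ring
  have hs' := abs_le.mp hs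
  have hDs : X ^ (1 / 2 - κ) / 2 ≤ q ^ s.re := by
    calc X ^ (1 / 2 - κ) / 2 ≤ (X / 4) ^ (1 / 2 - κ) := by
          rw [Real.div_rpow hX0.le (by norm_num)]
          apply div_le_div_of_nonneg_left (Real.rpow_nonneg hX0.le _)
            (Real.rpow_pos_of_pos (by norm_num) _)
          have e : (2 : ℝ) = 4 ^ (1 / 2 : ℝ) := by
            rw [show (4 : ℝ) = 2 ^ (2 : ℝ) by norm_num, ← Real.rpow_mul (by norm_num)]
            norm_num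
          calc (4 : ℝ) ^ (1 / 2 - κ) ≤ 4 ^ (1 / 2 : ℝ) :=
                Real.rpow_le_rpow_of_exponent_le (by norm_num) (by linarith)
            _ = 2 := e.symm
      _ ≤ q ^ (1 / 2 - κ) :=
          Real.rpow_le_rpow (by positivity) hD1 (by linarith)
      _ ≤ q ^ s.re := Real.rpow_le_rpow_of_exponent_le hq0 (by linarith [hs'.1])
  have hh : (Nat.card E.G : ℝ) ≤ C1 * X ^ (1 / 2 + ε) :=
    (@h1 K _ _ D f E.G E.cg E.fg E.cl hIQ hf E.rg).trans (mul_le_mul_of_nonneg_left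
      (Real.rpow_le_rpow (by linarith) hD2 (by linarith)) hC1.le)
  have hXs : X ^ (1 / 2 + ε) = X ^ (κ + ε) * X ^ (1 / 2 - κ) := by
    rw [← Real.rpow_add hX0]
    congr 1
    ring
  have hXp : 0 < X ^ (1 / 2 - κ) := Real.rpow_pos_of_pos hX0 _
  have hmain : P * (c2 * (X ^ (1 / 2 - κ) / 2)) ≤
      10 * (C2 ^ 2 * T ^ (2 * k2) * (C1 * (X ^ (κ + ε) * X ^ (1 / 2 - κ)))) * B := by
    calc P * (c2 * (X ^ (1 / 2 - κ) / 2))
        ≤ P * ((C2 ^ 2 * T ^ (2 * k2) * ‖gM m.natAbs s‖ ^ 2) * q ^ s.re) := by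
          apply mul_le_mul_of_nonneg_left _ hP0
          exact mul_le_mul hg2 hDs (by positivity) (by positivity)
      _ = C2 ^ 2 * T ^ (2 * k2) * (P * (‖gM m.natAbs s‖ ^ 2 * q ^ s.re)) := by ring
      _ ≤ C2 ^ 2 * T ^ (2 * k2) * (10 * Nat.card E.G * B) :=
          mul_le_mul_of_nonneg_left hP (by positivity)
      _ ≤ C2 ^ 2 * T ^ (2 * k2) * (10 * (C1 * X ^ (1 / 2 + ε)) * B) := by
          apply mul_le_mul_of_nonneg_left _ (by positivity)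
          exact mul_le_mul_of_nonneg_right (by linarith) hB0
      _ = _ := by rw [hXs]; ring
  have h3 : P * (c2 * (X ^ (1 / 2 - κ) / 2)) * (2 * c2⁻¹) ≤
      (10 * (C2 ^ 2 * T ^ (2 * k2) * (C1 * (X ^ (κ + ε) * X ^ (1 / 2 - κ)))) * B) *
        (2 * c2⁻¹) :=
    mul_le_mul_of_nonneg_right hmain (by positivity)
  have h4 : P * X ^ (1 / 2 - κ) ≤ ((20 * C1 * C2 ^ 2) * (T ^ (2 * k2) * c2⁻¹ *
      X ^ (κ + ε)) * B) * X ^ (1 / 2 - κ) := by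
    have e1 : P * X ^ (1 / 2 - κ) = P * (c2 * (X ^ (1 / 2 - κ) / 2)) * (2 * c2⁻¹) := by
      field_simp
    rw [e1]
    refine h3.trans (le_of_eq ?_)
    ring
  exact le_of_mul_le_mul_right h4 hXp

/-- the index set of the lines of all classes of all pairs -/
abbrev Om (K : ℕ → Type) [∀ D, Field (K D)] [∀ D, NumberField (K D)] (σ : ∀ D, K D →+* ℂ)
    (P : Finset (ℕ × ℕ)) (E : ∀ p : {p // p ∈ P}, Dat (K p.1.1) (σ p.1.1) p.1.1 p.1.2) : Type :=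
  Σ p : {p // p ∈ P}, Σ c : ClassGroup (𝓞 (K p.1.1)), {V // V ∈ (E p).T c}

/-- the form of an index -/
def qf {K : ℕ → Type} [∀ D, Field (K D)] [∀ D, NumberField (K D)] {σ : ∀ D, K D →+* ℂ}
    {P : Finset (ℕ × ℕ)} (E : ∀ p : {p // p ∈ P}, Dat (K p.1.1) (σ p.1.1) p.1.1 p.1.2)
    (ω : Om K σ P E) : QF :=
  fl ω.1.1.2 ((E ω.1).R.Q ω.2.1) ω.2.2.1 ((E ω.1).W ω.2.1 ω.2.2.1)

section

variable {K : ℕ → Type} [∀ D, Field (K D)] [∀ D, NumberField (K D)] {σ : ∀ D, K D →+* ℂ}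
    {P : Finset (ℕ × ℕ)} (E : ∀ p : {p // p ∈ P}, Dat (K p.1.1) (σ p.1.1) p.1.1 p.1.2)
    (hP : ∀ p ∈ P, IQ (K p.1) p.1 ∧ 1 ≤ p.2)

include hP

theorem qf_fd (hFLF : Pool.Agent.H95.FC.T_FLF) (ω : Om K σ P E) :
    qf E ω ∈ FD (ω.1.1.1 * ω.1.1.2 ^ 2) := by
  obtain ⟨p, c, V, hV⟩ := ω
  have h1 := hP p.1 p.2
  exact (hFLF p.1.2 ((E p).R.Q c) V ((E p).W c V) h1.2 (((E p).df.lt c).one V hV)).2.2.1
    p.1.1 h1.1.pos ((E p).R.fd c)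

theorem qf_eqv (hFLF : Pool.Agent.H95.FC.T_FLF) (hHOM : Pool.Agent.H95.FC.T_HOM)
    (hFDU : Pool.Agent.H95.FC.T_FDU) (hACT : T_ACT) (p : {p // p ∈ P})
    (c : ClassGroup (𝓞 (K p.1.1))) (V : {V // V ∈ (E p).T c}) (ω : Om K σ P E) (g : SL(2, ℤ))
    (h : act (qf E ⟨p, c, V⟩) g = qf E ω) :
    ∃ V' : {V // V ∈ (E p).T c}, ω = ⟨p, c, V'⟩ ∧
      UP ((E p).R.α c) ((E p).R.β c) p.1.2 V.1 V'.1 := by
  obtain ⟨p', c', V', hV'⟩ := ω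
  have h1 := hP p.1 p.2
  have h1' := hP p'.1 p'.2
  have hd : p.1.1 * p.1.2 ^ 2 = p'.1.1 * p'.1.2 ^ 2 := by
    have h3 := (qf_fd E hP hFLF ⟨p, c, V⟩).2
    have h4 := (qf_fd E hP hFLF ⟨p', c', V', hV'⟩).2
    have h5 := (hACT (qf E ⟨p, c, V⟩) g 1 0).2.1
    rw [h, h4, h3] at h5
    have h6 : ((p'.1.1 * p'.1.2 ^ 2 : ℕ) : ℤ) = ((p.1.1 * p.1.2 ^ 2 : ℕ) : ℤ) := h5
    exact_mod_cast h6.symm
  obtain ⟨e1, e2⟩ := hFDU (K p.1.1) (K p'.1.1) p.1.1 p'.1.1 p.1.2 p'.1.2 h1.1 h1'.1 h1.2 h1'.2 hd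
  have e3 : p = p' := Subtype.ext (Prod.ext e1 e2)
  subst e3
  have h7 := hHOM (K p.1.1) p.1.1 p.1.2 h1.1 h1.2 (E p).R (E p).b (E p).df.vb c c' V.1 V'
    ((E p).W c V.1) ((E p).W c' V') g (((E p).df.lt c).one V.1 V.2)
    (((E p).df.lt c').one V' hV') (((E p).df.lt c).un V.1 V.2) (((E p).df.lt c').un V' hV') h
  obtain ⟨e4, h8⟩ := h7
  subst e4
  exact ⟨⟨V', hV'⟩, rfl, h8⟩

theorem qf_few (hFLF : Pool.Agent.H95.FC.T_FLF) (hHOM : Pool.Agent.H95.FC.T_HOM)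
    (hFDU : Pool.Agent.H95.FC.T_FDU) (hACT : T_ACT) (hCNT : Pool.Agent.H95.FC.T_CNT)
    (ω : Om K σ P E) : {ω' | ∃ g : SL(2, ℤ), act (qf E ω) g = qf E ω'}.ncard ≤ 10 := by
  classical
  obtain ⟨p, c, V⟩ := ω
  have h1 := hP p.1 p.2
  have h2 := hCNT (K p.1.1) (E p).R.σ p.1.1 p.1.2 ((E p).R.I c) ((E p).R.α c) ((E p).R.β c)
    ((E p).R.Q c) ((E p).b c) ((E p).T c) ((E p).W c) h1.1 ((E p).R.ob c) ((E p).df.vb c)
    ((E p).df.lt c) V.1 V.2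
  have hkey : ∀ ω' ∈ {ω' | ∃ g : SL(2, ℤ), act (qf E ⟨p, c, V⟩) g = qf E ω'},
      ∃ V' : {V // V ∈ (E p).T c}, ω' = ⟨p, c, V'⟩ ∧
        UP ((E p).R.α c) ((E p).R.β c) p.1.2 V.1 V'.1 := by
    rintro ω' ⟨g, hg⟩
    exact qf_eqv E hP hFLF hHOM hFDU hACT p c V ω' g hg
  have h3 : ((((E p).T c).filter (fun V' => UP ((E p).R.α c) ((E p).R.β c) p.1.2 V.1 V') :
      Finset (ℤ × ℤ)) : Set (ℤ × ℤ)).ncard ≤ 10 := by
    rw [Set.ncard_coe_finset]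
    exact h2
  refine le_trans (Set.ncard_le_ncard_of_injOn (fun ω' : Om K σ P E => ω'.2.2.1) ?_ ?_
    (Finset.finite_toSet _)) h3
  · intro ω' hω'
    obtain ⟨V', e, h4⟩ := hkey ω' hω'
    subst e
    simp only [Finset.coe_filter, Set.mem_ofPred_eq]
    exact ⟨V'.2, h4⟩
  · intro ω' hω' ω'' hω'' e
    obtain ⟨V', e', -⟩ := hkey ω' hω'
    obtain ⟨V'', e'', -⟩ := hkey ω'' hω''
    subst e'
    subst e''
    have e3 : V' = V'' := Subtype.ext e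
    rw [e3]

end

theorem pf_TMFc (hTM : T_TMm) (hPVF : Pool.Agent.H95.FC.T_PVFc) (hGCB : Pool.Agent.H95.FC.T_GCB)
    (hGML : T_GMLc) (hHOM : Pool.Agent.H95.FC.T_HOM) (hCNT : Pool.Agent.H95.FC.T_CNT)
    (hFDU : Pool.Agent.H95.FC.T_FDU) (hACT : T_ACT) (hSPL : Pool.Agent.H95.FC.T_SPL)
    (hRSS : Pool.Agent.H95.FC.T_RSS) (hDFX : Pool.Agent.H95.FC.T_DFX)
    (hRGE : Pool.Agent.H37.CF.T_RGE) (hFLF : Pool.Agent.H95.FC.T_FLF) : T_TMFc := by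
  classical
  intro ε hε
  obtain ⟨κ0, hκ0, hκ8, δ, hδ, C0, k0, hC0⟩ := hTM (ε / 2) (by positivity)
  obtain ⟨C1, hC1, h1⟩ := hGCB (ε / 4) (by positivity)
  obtain ⟨C2, k2, hC2, h2⟩ := hGML
  set κ : ℝ := min κ0 (ε / 4) with hκ
  have hκpos : 0 < κ := lt_min hκ0 (by positivity)
  have hκle8 : κ ≤ 1 / 8 := (min_le_left _ _).trans hκ8
  refine ⟨κ, hκpos, hκle8, δ, hδ, (20 * C1 * C2 ^ 2) * (10 * (|C0| + 1)), 2 * k2 + k0,
    by positivity, ?_⟩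
  intro m s X N α K _ _ σ S F hs hX hN hNX hα hFam hm
  have hX0 : 0 < X := by linarith
  -- the pairs
  set gp : IX K → ℕ × ℕ := fun x => (x.1, x.2.1) with hgp
  set P : Finset (ℕ × ℕ) := S.image gp with hPd
  have hPx : ∀ p ∈ P, ∃ x ∈ S, x.1 = p.1 ∧ x.2.1 = p.2 := by
    intro p hp
    obtain ⟨x, hx, e⟩ := Finset.mem_image.mp hp
    exact ⟨x, hx, congrArg Prod.fst e, congrArg Prod.snd e⟩
  have hP : ∀ p ∈ P, IQ (K p.1) p.1 ∧ 1 ≤ p.2 := by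
    intro p hp
    obtain ⟨x, hx, e1, e2⟩ := hPx p hp
    rw [← e1, ← e2]
    exact ⟨hFam.iq x hx, (hFam.ch x hx).pos⟩
  have hPq : ∀ p ∈ P, X / 4 ≤ (p.1 : ℝ) * (p.2 : ℝ) ^ 2 ∧ (p.1 : ℝ) * (p.2 : ℝ) ^ 2 ≤ X := by
    intro p hp
    obtain ⟨x, hx, e1, e2⟩ := hPx p hp
    rw [← e1, ← e2]
    exact hFam.q x hx
  let E : ∀ p : {p // p ∈ P}, Dat (K p.1.1) (σ p.1.1) p.1.1 p.1.2 := fun p =>
    Classical.choice (dat_exists hRSS hDFX hRGE (K p.1.1) (σ p.1.1) p.1.1 p.1.2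
      (hP p.1 p.2).1 (hP p.1 p.2).2)
  set Y : ℝ := X ^ (1 / 2 : ℝ) with hY
  have hY1 : 1 ≤ Y := Real.one_le_rpow hX (by norm_num)
  have hY2 : Y ^ 2 = X := by
    rw [hY, ← Real.rpow_natCast, ← Real.rpow_mul hX0.le]
    norm_num
  have hYr : ∀ r : ℝ, Y ^ r = X ^ (r / 2) := by
    intro r
    rw [hY, ← Real.rpow_mul hX0.le]
    congr 1
    ring
  have hs0 : |s.re - 1 / 2| ≤ κ0 := hs.trans (min_le_left _ _)
  set T : ℝ := 1 + |s.im| + |(m : ℝ)| with hTd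
  have hT1 : 1 ≤ T := by
    have := abs_nonneg s.im
    have := abs_nonneg (m : ℝ)
    linarith
  have hc := cG_pos m.natAbs s.im
  set c2 : ℝ := cG m.natAbs s.im ^ 2 with hc2
  have hc20 : 0 < c2 := by positivity
  have hN0 : (0 : ℝ) ≤ N := Nat.cast_nonneg N
  -- the relation
  let r : Om K σ P E → Om K σ P E → Prop := fun ω ω' => ∃ g : SL(2, ℤ), act (qf E ω) g = qf E ω'
  have hr : Equivalence r := by
    refine ⟨fun ω => ⟨1, (hACT (qf E ω) 1 1 0).2.2.1⟩, ?_, ?_⟩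
    · rintro ω ω' ⟨g, hg⟩
      refine ⟨g⁻¹, ?_⟩
      rw [← hg, (hACT (qf E ω) g g⁻¹ 0).2.2.2.1, mul_inv_cancel]
      exact (hACT (qf E ω) 1 1 0).2.2.1
    · rintro ω ω' ω'' ⟨g, hg⟩ ⟨h, hh⟩
      refine ⟨g * h, ?_⟩
      rw [← (hACT (qf E ω) g h 0).2.2.2.1, hg, hh]
  obtain ⟨col, hcol⟩ := hSPL (Om K σ P E) r 10 hr
    (fun ω => qf_few E hP hFLF hHOM hFDU hACT hCNT ω)
  have hbox : ∑ ω : Om K σ P E, ‖Bm m s α N (qf E ω)‖ ^ 2 ≤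
      10 * ((|C0| + 1) * T ^ k0 * c2 * X ^ ((3 + ε / 2) / 2) * N) := by
    rw [← Finset.sum_fiberwise Finset.univ col]
    have hi : ∀ i : Fin 10, ∑ ω ∈ Finset.univ.filter (fun ω => col ω = i),
        ‖Bm m s α N (qf E ω)‖ ^ 2 ≤ (|C0| + 1) * T ^ k0 * c2 * X ^ ((3 + ε / 2) / 2) * N := by
      intro i
      have hinj : ∀ ω ∈ Finset.univ.filter (fun ω => col ω = i), ∀ ω' ∈ Finset.univ.filter
          (fun ω => col ω = i), ∀ g : SL(2, ℤ), act (qf E ω) g = qf E ω' → ω = ω' := by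
        intro ω hω ω' hω' g hg
        rw [Finset.mem_filter] at hω hω'
        exact hcol ω ω' ⟨g, hg⟩ (by rw [hω.2, hω'.2])
      have hinj1 : ∀ ω ∈ Finset.univ.filter (fun ω => col ω = i), ∀ ω' ∈ Finset.univ.filter
          (fun ω => col ω = i), qf E ω = qf E ω' → ω = ω' := by
        intro ω hω ω' hω' h
        refine hinj ω hω ω' hω' 1 ?_
        rw [(hACT (qf E ω) 1 1 0).2.2.1]
        exact h
      have hT := hC0 m s Y N α ((Finset.univ.filter (fun ω => col ω = i)).image (qf E)) hs0 hY1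
        hN (by
          rw [hYr]
          exact hNX) hα (by
          intro Q hQ
          obtain ⟨ω, -, rfl⟩ := Finset.mem_image.mp hQ
          have hfd := qf_fd E hP hFLF ω
          have hd : ((dsc (qf E ω) : ℤ) : ℝ) = (ω.1.1.1 : ℝ) * (ω.1.1.2 : ℝ) ^ 2 := by
            rw [hfd.2]
            push_cast
            rfl
          refine ⟨hfd.1, ?_, ?_⟩
          · rw [hd, hY2]
            exact (hPq ω.1.1 ω.1.2).1
          · rw [hd, hY2]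
            exact (hPq ω.1.1 ω.1.2).2) (by
          intro Q hQ Q' hQ' g hg
          obtain ⟨ω, hω, rfl⟩ := Finset.mem_image.mp hQ
          obtain ⟨ω', hω', rfl⟩ := Finset.mem_image.mp hQ'
          rw [hinj ω hω ω' hω' g hg])
      rw [Finset.sum_image hinj1, hYr] at hT
      refine hT.trans ?_
      have : C0 ≤ |C0| + 1 := by linarith [le_abs_self C0]
      gcongr
    calc ∑ i : Fin 10, ∑ ω ∈ Finset.univ.filter (fun ω => col ω = i), ‖Bm m s α N (qf E ω)‖ ^ 2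
        ≤ ∑ _i : Fin 10, (|C0| + 1) * T ^ k0 * c2 * X ^ ((3 + ε / 2) / 2) * N :=
          Finset.sum_le_sum fun i _ => hi i
      _ = _ := by
          rw [Finset.sum_const, Finset.card_univ, Fintype.card_fin, nsmul_eq_mul]
          norm_num
  have hexp : ∑ ω : Om K σ P E, ‖Bm m s α N (qf E ω)‖ ^ 2 =
      ∑ p : {p // p ∈ P}, ∑ c : ClassGroup (𝓞 (K p.1.1)), ∑ V ∈ (E p).T c,
        ‖Bm m s α N (fl p.1.2 ((E p).R.Q c) V ((E p).W c V))‖ ^ 2 := by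
    rw [Fintype.sum_sigma]
    refine Finset.sum_congr rfl fun p _ => ?_
    rw [Fintype.sum_sigma]
    refine Finset.sum_congr rfl fun c _ => ?_
    exact Finset.sum_coe_sort ((E p).T c) (fun V =>
      ‖Bm m s α N (fl p.1.2 ((E p).R.Q c) V ((E p).W c V))‖ ^ 2)
  -- the sum over the family
  let h : IX K → ℝ := fun x => ‖∑ n ∈ Sq N, α n * lc x.2.2.2 n‖ ^ 2 * ‖F x s‖ ^ 2
  have hfib : ∑ x ∈ S, h x = ∑ p : {p // p ∈ P}, ∑ x ∈ S.filter (fun x => gp x = p.1), h x := by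
    rw [Finset.sum_coe_sort P (fun p => ∑ x ∈ S.filter (fun x => gp x = p), h x)]
    exact (Finset.sum_fiberwise_of_maps_to (fun x hx => Finset.mem_image_of_mem gp hx) h).symm
  have hone : ∀ p : {p // p ∈ P}, ∑ x ∈ S.filter (fun x => gp x = p.1), h x ≤
      (20 * C1 * C2 ^ 2) * (T ^ (2 * k2) * c2⁻¹ * X ^ (κ + ε / 4)) *
        ∑ c : ClassGroup (𝓞 (K p.1.1)), ∑ V ∈ (E p).T c,
          ‖Bm m s α N (fl p.1.2 ((E p).R.Q c) V ((E p).W c V))‖ ^ 2 := by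
    intro p
    let ι : (Ideal (𝓞 (K p.1.1)) → ℂ) → IX K := fun ψ => ⟨p.1.1, p.1.2, m, ψ⟩
    have hι : Function.Injective ι := by
      intro ψ ψ' e
      have e1 := (Sigma.mk.inj e).2
      have e2 := eq_of_heq e1
      exact (Prod.ext_iff.1 (Prod.ext_iff.1 e2).2).2
    set Ψ : Finset (Ideal (𝓞 (K p.1.1)) → ℂ) := S.preimage ι hι.injOn with hΨ
    have himg : S.filter (fun x => gp x = p.1) = Ψ.image ι := by
      ext x
      constructor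
      · intro hx
        obtain ⟨hx1, hx2⟩ := Finset.mem_filter.1 hx
        have hmx := hm x hx1
        obtain ⟨D, f, m', ψ⟩ := x
        have e1 : D = p.1.1 := congrArg Prod.fst hx2
        have e2 : f = p.1.2 := congrArg Prod.snd hx2
        subst e1
        have e3 : m' = m := hmx
        rw [Finset.mem_image]
        refine ⟨ψ, ?_, ?_⟩
        · rw [hΨ, Finset.mem_preimage]
          change (⟨p.1.1, p.1.2, m, ψ⟩ : IX K) ∈ S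
          rw [← e2, ← e3]
          exact hx1
        · change (⟨p.1.1, p.1.2, m, ψ⟩ : IX K) = _
          rw [← e2, ← e3]
      · intro hx
        obtain ⟨ψ, hψ, rfl⟩ := Finset.mem_image.1 hx
        rw [Finset.mem_filter]
        exact ⟨Finset.mem_preimage.1 hψ, rfl⟩
    rw [himg, Finset.sum_image (fun _ _ _ _ e => hι e)]
    have hp := hP p.1 p.2
    refine one_pair hPVF (by positivity) hκpos hκle8 hC1 hC2 h1 h2 (K p.1.1) (σ p.1.1) p.1.1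
      p.1.2 m hp.1 hp.2 (E p) Ψ (fun ψ => F (ι ψ)) ?_ s N α X hX hs (hPq p.1 p.2).1
      (hPq p.1 p.2).2
    intro ψ hψ
    have hx := Finset.mem_preimage.1 hψ
    exact ⟨hFam.ch (ι ψ) hx, hFam.lf (ι ψ) hx⟩
  have hcc : c2⁻¹ * c2 = 1 := inv_mul_cancel₀ hc20.ne'
  calc ∑ x ∈ S, h x
      = ∑ p : {p // p ∈ P}, ∑ x ∈ S.filter (fun x => gp x = p.1), h x := hfib
    _ ≤ ∑ p : {p // p ∈ P}, (20 * C1 * C2 ^ 2) * (T ^ (2 * k2) * c2⁻¹ * X ^ (κ + ε / 4)) *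
        ∑ c : ClassGroup (𝓞 (K p.1.1)), ∑ V ∈ (E p).T c,
          ‖Bm m s α N (fl p.1.2 ((E p).R.Q c) V ((E p).W c V))‖ ^ 2 :=
        Finset.sum_le_sum fun p _ => hone p
    _ = (20 * C1 * C2 ^ 2) * (T ^ (2 * k2) * c2⁻¹ * X ^ (κ + ε / 4)) *
          ∑ ω : Om K σ P E, ‖Bm m s α N (qf E ω)‖ ^ 2 := by
        rw [hexp, Finset.mul_sum]
    _ ≤ (20 * C1 * C2 ^ 2) * (T ^ (2 * k2) * c2⁻¹ * X ^ (κ + ε / 4)) *
          (10 * ((|C0| + 1) * T ^ k0 * c2 * X ^ ((3 + ε / 2) / 2) * N)) :=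
        mul_le_mul_of_nonneg_left hbox (by positivity)
    _ = (20 * C1 * C2 ^ 2) * (10 * (|C0| + 1)) * T ^ (2 * k2 + k0) *
          (X ^ (κ + ε / 4) * X ^ ((3 + ε / 2) / 2)) * N * (c2⁻¹ * c2) := by ring
    _ = (20 * C1 * C2 ^ 2) * (10 * (|C0| + 1)) * T ^ (2 * k2 + k0) *
          X ^ (κ + ε / 4 + (3 + ε / 2) / 2) * N := by
        rw [hcc, mul_one, ← Real.rpow_add hX0]
    _ ≤ (20 * C1 * C2 ^ 2) * (10 * (|C0| + 1)) * T ^ (2 * k2 + k0) * X ^ (3 / 2 + ε) * N := by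
        have hκ4 : κ ≤ ε / 4 := min_le_right _ _
        have : X ^ (κ + ε / 4 + (3 + ε / 2) / 2) ≤ X ^ (3 / 2 + ε) :=
          Real.rpow_le_rpow_of_exponent_le hX (by linarith)
        gcongr

end Pool.Agent.H89.FC
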