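import Pool.Agent.H89.FC.TargetsN

/-!
# The complete family: the final theorem from the parts
-/

set_option autoImplicit false

open MeasureTheory Set Filter NumberField
open scoped Real nonZeroDivisors

namespace Pool.Agent.H89.FC

open Pool.Agent.H31.CN Pool.Agent.H89.FM Pool.Agent.H61.FM

/-- the ideal `I` is non-zero and prime to `f` -/
def PrimeTo (K : Type) [Field K] [NumberField K] (f : ℕ) (I : Ideal (𝓞 K)) : Prop :=
  I ≠ ⊥ ∧ I ⊔ Ideal.span {(f : 𝓞 K)} = ⊤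

/-- primitive Hecke characters, trivial on `ℚ`, conductor `f`, infinity type `(a / |a|) ^ (2 m)` -/
def IsHecke (K : Type) [Field K] [NumberField K] (σ : K →+* ℂ) (f : ℕ) (m : ℤ)
    (ψ : Ideal (𝓞 K) → ℂ) : Prop :=
  0 < f ∧ ψ ⊤ = 1 ∧ (∀ I J, ψ (I * J) = ψ I * ψ J) ∧ (∀ I, PrimeTo K f I → ‖ψ I‖ = 1) ∧
  (∀ I, ¬ PrimeTo K f I → ψ I = 0) ∧
  (∀ (a : 𝓞 K) (n : ℤ), PrimeTo K f (Ideal.span {a}) → (f : 𝓞 K) ∣ a - n →
    ψ (Ideal.span {a}) = (σ (a : K) / (starRingEnd ℂ) (σ (a : K))) ^ m) ∧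
  ∀ p : ℕ, p.Prime → p ∣ f → ∃ (a : 𝓞 K) (n : ℤ), PrimeTo K f (Ideal.span {a}) ∧
    ((f / p : ℕ) : 𝓞 K) ∣ a - n ∧
    ψ (Ideal.span {a}) ≠ (σ (a : K) / (starRingEnd ℂ) (σ (a : K))) ^ m

/-- the `L`-function -/
def IsLFunction (K : Type) [Field K] [NumberField K] (ψ : Ideal (𝓞 K) → ℂ) (L : ℂ → ℂ) : Prop :=
  DifferentiableOn ℂ L {1}ᶜ ∧ ∀ s : ℂ, 1 < s.re →
    HasSum (fun I : (Ideal (𝓞 K))⁰ => ψ I * (Ideal.absNorm (I : Ideal (𝓞 K)) : ℂ) ^ (-s)) (L s)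

/-- the indices `(D, f, m, ψ)` -/
abbrev Index (K : ℕ → Type) [∀ D, Field (K D)] [∀ D, NumberField (K D)] : Type :=
  Σ D : ℕ, ℕ × ℤ × (Ideal (𝓞 (K D)) → ℂ)

/-- the level `D f ^ 2` -/
def level {K : ℕ → Type} [∀ D, Field (K D)] [∀ D, NumberField (K D)] (x : Index K) : ℝ :=
  (x.1 : ℝ) * (x.2.1 : ℝ) ^ 2

/-- the quantity `1 + |t| + |m|` -/
def size {K : ℕ → Type} [∀ D, Field (K D)] [∀ D, NumberField (K D)] (x : Index K) (t : ℝ) : ℝ :=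
  1 + |t| + |(x.2.2.1 : ℝ)|

/-- the family -/
def Family (X : ℝ) (K : ℕ → Type) [∀ D, Field (K D)] [∀ D, NumberField (K D)]
    (σ : ∀ D, K D →+* ℂ) (S : Finset (Index K)) (L : Index K → ℂ → ℂ) : Prop :=
  ∀ x ∈ S, Module.finrank ℚ (K x.1) = 2 ∧ discr (K x.1) = -(x.1 : ℤ) ∧
    level x ≤ X ∧ IsHecke (K x.1) (σ x.1) x.2.1 x.2.2.1 x.2.2.2 ∧
    IsLFunction (K x.1) x.2.2.2 (L x)

theorem isHecke_iff (K : Type) [Field K] [NumberField K] (σ : K →+* ℂ) (f : ℕ) (m : ℤ)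
    (ψ : Ideal (𝓞 K) → ℂ) : IsHecke K σ f m ψ ↔ RCh K σ f m ψ := by
  have hd : ∀ (n : ℕ) (b : 𝓞 K), (n : 𝓞 K) ∣ b ↔ b ∈ Ideal.span {(n : 𝓞 K)} :=
    fun n b => Ideal.mem_span_singleton.symm
  constructor
  · rintro ⟨h1, h2, h3, h4, h5, h6, h7⟩
    refine ⟨h1, h2, h3, h5, h4, ?_, ?_⟩
    · rintro a ⟨h8, n, h9⟩
      exact h6 a n h8 ((hd f _).2 h9)
    · intro p hp hpf
      obtain ⟨a, n, h8, h9, h10⟩ := h7 p hp hpf
      exact ⟨a, ⟨h8, n, (hd (f / p) _).1 h9⟩, h10⟩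
  · rintro ⟨h1, h2, h3, h5, h4, h6, h7⟩
    refine ⟨h1, h2, h3, h4, h5, ?_, ?_⟩
    · intro a n h8 h9
      exact h6 a ⟨h8, n, (hd f _).1 h9⟩
    · intro p hp hpf
      obtain ⟨a, ⟨h8, n, h9⟩, h10⟩ := h7 p hp hpf
      exact ⟨a, n, h8, (hd (f / p) _).2 h9, h10⟩

/-- the final theorem from the parts -/
theorem fin (hEXL : T_EXLc) (hFM2 : T_FM2c) (hCOR : T_CORc) (hCO2 : T_CO2c) :
    (∀ (K : Type) [Field K] [NumberField K] (σ : K →+* ℂ) (f : ℕ) (m : ℤ)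
      (ψ : Ideal (𝓞 K) → ℂ), Module.finrank ℚ K = 2 → discr K < 0 → IsHecke K σ f m ψ →
      ∃ L : ℂ → ℂ, IsLFunction K ψ L) ∧
    ∀ ε : ℝ, 0 < ε → ∃ (C : ℝ) (A : ℕ), ∀ (X : ℝ) (K : ℕ → Type)
      [∀ D, Field (K D)] [∀ D, NumberField (K D)] (σ : ∀ D, K D →+* ℂ) (S : Finset (Index K))
      (L : Index K → ℂ → ℂ), 1 ≤ X → Family X K σ S L →
      (∀ t : Index K → ℝ,
        ∑ x ∈ S, (‖L x (1 / 2 + t x * Complex.I)‖ / size x (t x) ^ A) ^ 4 ≤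
          C * X ^ (3 / 2 + ε)) ∧
      (∀ η : ℝ, 0 ≤ η → η ≤ 3 / 8 →
        (∀ x ∈ S, ∃ t : ℝ, size x t ^ A * level x ^ η < ‖L x (1 / 2 + t * Complex.I)‖) →
        (S.card : ℝ) ≤ C * X ^ (3 / 2 - 4 * η + ε)) ∧
      ∀ (η : ℝ) (T : Finset (ℕ × ℕ)), 0 ≤ η → η ≤ 1 / 4 →
        (∀ q ∈ T, ∃ x ∈ S, x.1 = q.1 ∧ x.2.1 = q.2 ∧ ∃ t : ℝ,
          size x t ^ A * level x ^ (1 / 8 + η) < ‖L x (1 / 2 + t * Complex.I)‖) →
        (T.card : ℝ) ≤ C * X ^ (1 - 4 * η + ε) := by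
  constructor
  · intro K _ _ σ f m ψ hrk hdis hψ
    obtain ⟨D, hD⟩ : ∃ D : ℕ, discr K = -(D : ℤ) := ⟨(discr K).natAbs, by
      rw [Int.ofNat_natAbs_of_nonpos hdis.le, neg_neg]⟩
    have hD0 : 0 < D := by omega
    obtain ⟨F, hF⟩ := hEXL K σ D f m ψ ⟨hD0, hrk, hD⟩ ((isHecke_iff K σ f m ψ).1 hψ)
    exact ⟨F, hF⟩
  · intro ε hε
    obtain ⟨C₁, A₁, hC₁, h1⟩ := hFM2 ε hε
    obtain ⟨C₂, A₂, hC₂, h2⟩ := hCOR ε hε
    obtain ⟨C₃, A₃, hC₃, h3⟩ := hCO2 ε hε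
    obtain ⟨A, hA⟩ : ∃ A : ℕ, A = A₁ + A₂ + A₃ := ⟨_, rfl⟩
    obtain ⟨C, hC⟩ : ∃ C : ℝ, C = C₁ + C₂ + C₃ := ⟨_, rfl⟩
    refine ⟨C, A, ?_⟩
    intro X K _ _ σ S L hX hS
    have hX0 : (0 : ℝ) < X := by linarith
    have hFam : Fam K σ S L 0 X := by
      refine ⟨?_, ?_, ?_, ?_⟩
      · intro x hx
        refine ⟨by positivity, ?_⟩
        exact (hS x hx).2.2.1
      · intro x hx
        obtain ⟨h4, h5, -⟩ := hS x hx
        refine ⟨?_, h4, h5⟩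
        rcases Nat.eq_zero_or_pos x.1 with h | h
        · exact absurd (by rw [h5, h]; simp) (NumberField.discr_ne_zero (K x.1))
        · exact h
      · intro x hx
        exact (isHecke_iff _ _ _ _ _).1 (hS x hx).2.2.2.1
      · intro x hx
        exact (hS x hx).2.2.2.2
    have hsz : ∀ (x : Index K) (t : ℝ), 1 ≤ size x t := by
      intro x t
      unfold size
      have := abs_nonneg t
      have := abs_nonneg (x.2.2.1 : ℝ)
      linarith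
    have hpw : ∀ (x : Index K) (t : ℝ) (B : ℕ), B ≤ A → size x t ^ B ≤ size x t ^ A :=
      fun x t B hB => pow_le_pow_right₀ (hsz x t) hB
    have hXp : ∀ r : ℝ, 0 < X ^ r := fun r => Real.rpow_pos_of_pos hX0 r
    refine ⟨?_, ?_, ?_⟩
    · intro t
      have h4 := h1 X K σ S L t hX hFam
      calc ∑ x ∈ S, (‖L x (1 / 2 + t x * Complex.I)‖ / size x (t x) ^ A) ^ 4 ≤
          ∑ y ∈ S, (‖L y (1 / 2 + t y * Complex.I)‖ / (1 + |t y| + |(y.2.2.1 : ℝ)|) ^ A₁) ^ 4 := by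
            apply Finset.sum_le_sum
            intro x hx
            apply pow_le_pow_left₀ (by have := hsz x (t x); positivity)
            apply div_le_div_of_nonneg_left (norm_nonneg _)
            · have := hsz x (t x)
              have h5 : 0 < size x (t x) ^ A₁ := by positivity
              exact h5
            · exact hpw x (t x) A₁ (by omega)
        _ ≤ C₁ * X ^ (3 / 2 + ε) := h4
        _ ≤ C * X ^ (3 / 2 + ε) :=
            mul_le_mul_of_nonneg_right (by rw [hC]; linarith) (hXp _).le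
    · intro η hη hη' h
      have h4 := h3 X η K σ S L hX hη hη' hFam (by
        intro y hy
        obtain ⟨t, ht⟩ := h y hy
        refine ⟨t, lt_of_le_of_lt ?_ ht⟩
        apply mul_le_mul_of_nonneg_right (hpw y t A₃ (by omega))
        positivity)
      exact h4.trans (mul_le_mul_of_nonneg_right (by rw [hC]; linarith) (hXp _).le)
    · intro η T hη hη' h
      have h4 := h2 X η K σ S L T hX hη hη' hFam (by
        intro q hq
        obtain ⟨y, hy, e1, e2, t, ht⟩ := h q hq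
        refine ⟨y, hy, e1, e2, t, lt_of_le_of_lt ?_ ht⟩
        apply mul_le_mul_of_nonneg_right (hpw y t A₂ (by omega))
        positivity)
      exact h4.trans (mul_le_mul_of_nonneg_right (by rw [hC]; linarith) (hXp _).le)

end Pool.Agent.H89.FC
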