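import Pool.Agent.H5.FC.AANT
import Pool.Agent.H48.FC.ACHX
import Pool.Agent.H41.FC.ACNT
import Pool.Agent.H68.FC.ADFX
import Pool.Agent.H48.FC.AEXL
import Pool.Agent.H35.FC.AFBR
import Pool.Agent.H95.FC.AFDU
import Pool.Agent.H95.FC.AFLF
import Pool.Agent.H4.FC.AFRA
import Pool.Agent.H82.FC.AFRM
import Pool.Agent.H48.FC.AGCB
import Pool.Agent.H40.FC.AGSU
import Pool.Agent.H86.FC.AHBD
import Pool.Agent.H10.FC.AHOM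
import Pool.Agent.H39.FC.AIOS
import Pool.Agent.H14.FC.ALC1
import Pool.Agent.H19.FC.ALF1
import Pool.Agent.H85.FC.ALF2
import Pool.Agent.H32.FC.ALFK
import Pool.Agent.H41.FC.ALTX
import Pool.Agent.H27.FC.ANCU
import Pool.Agent.H95.FC.APAR
import Pool.Agent.H10.FC.APRI
import Pool.Agent.H95.FC.APVF
import Pool.Agent.H27.FC.ARHO
import Pool.Agent.H85.FC.ARSS
import Pool.Agent.H85.FC.ASPL
import Pool.Agent.H27.FC.ASUM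
import Pool.Agent.H62.FC.ATCB
import Pool.Agent.H89.FC.ATMF
import Pool.Agent.H19.FC.ATNB
import Pool.Agent.H14.FC.ATRN
import Pool.Agent.H19.FC.ATWN
import Pool.Agent.H19.FC.ATWS
import Pool.Agent.H5.FC.AUNB
import Pool.Agent.H68.FC.AVAN
import Pool.Agent.H56.FC.AVNT
import Pool.Agent.H78.FC.KAN
import Pool.Agent.H14.FC.KBI
import Pool.Agent.H19.FC.KBO
import Pool.Agent.H14.FC.KCE
import Pool.Agent.H39.FC.KE0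
import Pool.Agent.H59.FC.KEB
import Pool.Agent.H36.FC.KEC
import Pool.Agent.H78.FC.KEX
import Pool.Agent.H19.FC.KEZ
import Pool.Agent.H42.FC.KGM
import Pool.Agent.H59.FC.KHE
import Pool.Agent.H94.FC.KIN
import Pool.Agent.H38.FC.KKB
import Pool.Agent.H19.FC.KKD
import Pool.Agent.H40.FC.KME
import Pool.Agent.H85.FC.KPB
import Pool.Agent.H49.FC.KPS
import Pool.Agent.H11.FC.KR1
import Pool.Agent.H68.FC.KRB
import Pool.Agent.H72.FC.KRO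
import Pool.Agent.H13.FC.KTH
import Pool.Agent.H42.FC.KTL
import Pool.Agent.H19.FC.KTM
import Pool.Agent.H55.FC.NAB
import Pool.Agent.H69.FC.NC2
import Pool.Agent.H68.FC.NCO
import Pool.Agent.H34.FC.NCR
import Pool.Agent.H3.FC.NDV
import Pool.Agent.H70.FC.NF1
import Pool.Agent.H69.FC.NF2
import Pool.Agent.H94.FC.NFS
import Pool.Agent.H3.FC.NMO
import Pool.Agent.H56.FC.NMT
import Pool.Agent.H35.FC.NMU
import Pool.Agent.H90.FC.NPB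
import Pool.Agent.H96.FC.NSP
import Pool.Agent.H48.FC.NTR
import Pool.Agent.H89.FM.Asm12
import Pool.Agent.H61.FM.Asm3
import Pool.Agent.H23.FC.BRX
import Pool.Agent.H10.CF.CRGE
import Pool.Agent.H37.CF.COP
import Pool.Agent.H60.CF.CINV
import Pool.Agent.H56.CF.PPRN
import Pool.Agent.H89.FC.Fin

/-!
# The fourth moment over all discriminants: assembly
-/

set_option autoImplicit false

namespace Pool.Agent.H89.FC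

theorem x_RGE : Pool.Agent.H37.CF.T_RGE :=
  Pool.Agent.H10.CF.pf_RGE (Pool.Agent.H37.CF.pf_COP Pool.Agent.H56.CF.pf_PRN)
    (Pool.Agent.H60.CF.pf_INV (Pool.Agent.H37.CF.pf_COP Pool.Agent.H56.CF.pf_PRN))

theorem d_AANT : Pool.Agent.H95.FC.T_ANT :=
  Pool.Agent.H5.FC.pf_ANT

theorem d_ACHX : Pool.Agent.H95.FC.T_CHX :=
  Pool.Agent.H48.FC.pf_CHX

theorem d_AFBR : Pool.Agent.H95.FC.T_FBR :=
  Pool.Agent.H35.FC.pf_FBR Pool.Agent.H56.CF.pf_PRN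

theorem d_AFDU : Pool.Agent.H95.FC.T_FDU :=
  Pool.Agent.H95.FC.pf_FDU

theorem d_AFLF : Pool.Agent.H95.FC.T_FLF :=
  Pool.Agent.H95.FC.pf_FLF

theorem d_AFRA : Pool.Agent.H95.FC.T_FRA :=
  Pool.Agent.H4.FC.pf_FRA d_AFLF

theorem d_AFRM : Pool.Agent.H95.FC.T_FRM :=
  Pool.Agent.H82.FC.pf_FRM d_AFLF d_AFRA

theorem d_AHOM : Pool.Agent.H95.FC.T_HOM :=
  Pool.Agent.H10.FC.pf_HOM d_AFLF Pool.Agent.H56.CF.pf_PRN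

theorem d_AIOS : Pool.Agent.H95.FC.T_IOS :=
  Pool.Agent.H39.FC.pf_IOS d_AFLF d_AFRA

theorem d_ALC1 : Pool.Agent.H95.FC.T_LC1 :=
  Pool.Agent.H14.FC.pf_LC1 Pool.Agent.H89.FM.c_FLS Pool.Agent.H56.CF.pf_PRN

theorem d_APAR : Pool.Agent.H95.FC.T_PAR :=
  Pool.Agent.H95.FC.pf_PAR

theorem d_ARHO : Pool.Agent.H95.FC.T_RHO :=
  Pool.Agent.H27.FC.pf_RHO d_APAR d_AANT d_AFRA

theorem d_ARSS : Pool.Agent.H95.FC.T_RSS :=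
  Pool.Agent.H85.FC.pf_RSS

theorem d_ASPL : Pool.Agent.H95.FC.T_SPL :=
  Pool.Agent.H85.FC.pf_SPL

theorem d_ATCB : Pool.Agent.H95.FC.T_TCB :=
  Pool.Agent.H62.FC.pf_TCB

theorem d_ATNB : Pool.Agent.H95.FC.T_TNB :=
  Pool.Agent.H19.FC.pf_TNB d_AFLF Pool.Agent.H89.FM.c_FLS Pool.Agent.H89.FM.c_GEN

theorem d_ATRN : Pool.Agent.H95.FC.T_TRN :=
  Pool.Agent.H14.FC.pf_TRN

theorem d_ATWN : Pool.Agent.H95.FC.T_TWN :=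
  Pool.Agent.H19.FC.pf_TWN Pool.Agent.H89.FM.c_FLS Pool.Agent.H89.FM.c_GEN Pool.Agent.H89.FM.c_CRT

theorem d_ATWS : Pool.Agent.H95.FC.T_TWSc :=
  Pool.Agent.H19.FC.pf_TWSc

theorem d_AUNB : Pool.Agent.H95.FC.T_UNB :=
  Pool.Agent.H5.FC.pf_UNB

theorem d_AVNT : Pool.Agent.H95.FC.T_VNT :=
  Pool.Agent.H56.FC.pf_VNT d_AFLF

theorem d_KAN : T_ANB :=
  Pool.Agent.H78.FC.pf_ANB

theorem d_KBI : T_BIVm :=
  Pool.Agent.H14.FC.pf_BIVm Pool.Agent.H89.FM.c_QZV Pool.Agent.H89.FM.c_FLS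

theorem d_KGM : T_GMLc :=
  Pool.Agent.H42.FC.pf_GMLc

theorem d_KPB : Pool.Agent.H23.FC.T_PHB :=
  Pool.Agent.H85.FC.pf_PHB

theorem d_KPS : T_PSBm :=
  Pool.Agent.H49.FC.pf_PSBm Pool.Agent.H89.FM.c_PSB

theorem d_KR1 : Pool.Agent.H23.FC.T_KR1c :=
  Pool.Agent.H11.FC.pf_KR1c d_KPB

theorem d_KRB : T_KRBc :=
  Pool.Agent.H68.FC.pf_KRBc d_KR1

theorem d_KTL : T_THLm :=
  Pool.Agent.H42.FC.pf_THLm Pool.Agent.H89.FM.c_THL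

theorem d_NDV : T_DVBc :=
  Pool.Agent.H3.FC.pf_DVBc Pool.Agent.H61.FM.a_DVB

theorem d_NMU : T_MULc :=
  Pool.Agent.H35.FC.pf_MULc

theorem d_NSP : T_SPTc :=
  Pool.Agent.H96.FC.pf_SPTc d_NDV

theorem d_ACNT : Pool.Agent.H95.FC.T_CNT :=
  Pool.Agent.H41.FC.pf_CNT d_ATRN d_AUNB

theorem d_AGSU : Pool.Agent.H95.FC.T_GSU :=
  Pool.Agent.H40.FC.pf_GSU d_APAR Pool.Agent.H56.CF.pf_PRN

theorem d_ALTX : Pool.Agent.H95.FC.T_LTX :=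
  Pool.Agent.H41.FC.pf_LTX d_ATRN

theorem d_APRI : Pool.Agent.H95.FC.T_PRI :=
  Pool.Agent.H10.FC.pf_PRI d_ATRN d_AANT d_ARHO d_AFRA Pool.Agent.H56.CF.pf_PRN

theorem d_AVAN : Pool.Agent.H95.FC.T_VAN :=
  Pool.Agent.H68.FC.pf_VAN d_APRI d_AVNT

theorem d_KKB : T_KCBm :=
  Pool.Agent.H38.FC.pf_KCBm d_KPB

theorem d_KKD : T_KCDm :=
  Pool.Agent.H19.FC.pf_KCDm d_KKB

theorem d_KTH : T_THHm :=
  Pool.Agent.H13.FC.pf_THHm d_KTL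

theorem d_NAB : T_ABSc :=
  Pool.Agent.H55.FC.pf_ABSc d_NSP

theorem d_ADFX : Pool.Agent.H95.FC.T_DFX :=
  Pool.Agent.H68.FC.pf_DFX d_ALTX

theorem d_AGCB : Pool.Agent.H95.FC.T_GCB :=
  Pool.Agent.H48.FC.pf_GCB d_AGSU d_ATCB d_ARSS d_ADFX Pool.Agent.H61.FM.a_HBD

theorem d_AHBD : T_HBDc :=
  Pool.Agent.H86.FC.pf_HBDc d_AGCB d_ACHX x_RGE

theorem d_ANCU : Pool.Agent.H95.FC.T_NCU :=
  Pool.Agent.H27.FC.pf_NCU d_ATRN d_ARHO d_APRI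

theorem d_ASUM : Pool.Agent.H95.FC.T_SUM :=
  Pool.Agent.H27.FC.pf_SUM d_ANCU d_AFRA Pool.Agent.H56.CF.pf_PRN

theorem d_KE0 : T_EZ0 :=
  Pool.Agent.H39.FC.pf_EZ0 d_KTL d_KTH

theorem d_KEB : T_ECBm :=
  Pool.Agent.H59.FC.pf_ECBm d_KKB Pool.Agent.H89.FM.c_QCB Pool.Agent.H89.FM.c_LSM d_KAN

theorem d_KEC : T_ECCm :=
  Pool.Agent.H36.FC.pf_ECCm d_KKB d_KKD Pool.Agent.H89.FM.c_QCB Pool.Agent.H89.FM.c_LSM d_KAN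

theorem d_KIN : T_INVm :=
  Pool.Agent.H94.FC.pf_INVm d_KTL d_KTH Pool.Agent.H89.FM.c_INV

theorem d_KME : T_MELm :=
  Pool.Agent.H40.FC.pf_MELm d_KIN d_KPS

theorem d_KRO : T_ROTm :=
  Pool.Agent.H72.FC.pf_ROTm d_KIN d_KPS

theorem d_NCR : T_CRDc :=
  Pool.Agent.H34.FC.pf_CRDc d_AHBD

theorem d_KEZ : T_EZAm :=
  Pool.Agent.H19.FC.pf_EZAm d_KME d_KIN d_KPS

theorem d_KHE : T_HECm :=
  Pool.Agent.H59.FC.pf_HECm Pool.Agent.H89.FM.c_FLS Pool.Agent.H89.FM.c_CRT Pool.Agent.H89.FM.c_CNL d_KME d_KPS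

theorem x_EZAx : Pool.Agent.H95.FC.T_EZAx := Pool.Agent.H23.FC.pf_EZAx d_KEZ d_KE0 Pool.Agent.H89.FM.c_FLS

theorem d_AEXL : T_EXLc :=
  Pool.Agent.H48.FC.pf_EXLc d_ARSS d_ADFX x_EZAx d_ASUM d_ATWS d_AIOS d_AFRA d_AFLF Pool.Agent.H61.FM.a_QZV d_ALC1

theorem d_ALF1 : Pool.Agent.H95.FC.T_LF1c :=
  Pool.Agent.H19.FC.pf_LF1c d_ASUM d_AVAN d_ATWN d_ATNB d_AFRM d_AFRA d_ATWS d_ALC1 x_EZAx Pool.Agent.H61.FM.a_LIN Pool.Agent.H61.FM.a_LSU Pool.Agent.H61.FM.a_QZV Pool.Agent.H89.FM.c_FLS Pool.Agent.H89.FM.c_GEN Pool.Agent.H89.FM.c_CRT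

theorem d_ALF2 : Pool.Agent.H95.FC.T_LF2c :=
  Pool.Agent.H85.FC.pf_LF2c d_ALF1 x_EZAx Pool.Agent.H89.FM.c_FLS d_AFRA

theorem x_ROTx : Pool.Agent.H95.FC.T_ROTx := Pool.Agent.H23.FC.pf_ROTx d_KRO Pool.Agent.H89.FM.c_FLS

theorem d_ALFK : T_LFKc :=
  Pool.Agent.H32.FC.pf_LFKc d_ALF2 d_ARSS d_ADFX x_ROTx d_ASUM d_ATWS d_AIOS d_AFRA d_AFLF Pool.Agent.H61.FM.a_QZV d_ALC1

theorem d_APVF : Pool.Agent.H95.FC.T_PVFc :=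
  Pool.Agent.H95.FC.pf_PVFc d_ALF2 Pool.Agent.H61.FM.a_PVL d_ACHX d_AFBR d_ACNT Pool.Agent.H56.CF.pf_PRN

theorem d_KEX : T_EXPm :=
  Pool.Agent.H78.FC.pf_EXPm Pool.Agent.H89.FM.c_FLS Pool.Agent.H89.FM.c_CRT Pool.Agent.H89.FM.c_RFM d_KHE Pool.Agent.H89.FM.c_IND Pool.Agent.H89.FM.c_GCD

theorem d_NPB : T_PBDc :=
  Pool.Agent.H90.FC.pf_PBDc d_ALFK d_KRB d_NAB d_KGM d_NSP

theorem d_NTR : T_TRBc :=
  Pool.Agent.H48.FC.pf_TRBc d_NPB d_NSP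

theorem d_KCE : T_CELm :=
  Pool.Agent.H14.FC.pf_CELm Pool.Agent.H89.FM.c_LS d_KEB d_KEC Pool.Agent.H89.FM.c_CAS d_KRO d_KEX Pool.Agent.H89.FM.c_FLS Pool.Agent.H89.FM.c_MIN

theorem d_KBO : T_BOXm :=
  Pool.Agent.H19.FC.pf_BOXm d_KCE

theorem d_KTM : T_TMm :=
  Pool.Agent.H19.FC.pf_TMm d_KBO Pool.Agent.H89.FM.c_RED d_KBI

theorem d_ATMF : T_TMFc :=
  Pool.Agent.H89.FC.pf_TMFc d_KTM d_APVF d_AGCB d_KGM d_AHOM d_ACNT d_AFDU Pool.Agent.H50.CN.pf_ACT d_ASPL d_ARSS d_ADFX x_RGE d_AFLF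

theorem d_NMO : T_MOSc :=
  Pool.Agent.H3.FC.pf_MOSc d_ATMF d_NMU Pool.Agent.H61.FM.a_SQD Pool.Agent.H61.FM.a_SFS d_NDV

theorem d_NMT : T_MOTc :=
  Pool.Agent.H56.FC.pf_MOTc d_NMO d_NSP d_NTR d_NCR

theorem d_NFS : T_FMSc :=
  Pool.Agent.H94.FC.pf_FMSc d_NMT d_NPB d_NSP

theorem d_NF1 : T_FM1c :=
  Pool.Agent.H70.FC.pf_FM1c Pool.Agent.H61.FM.a_SUP d_NFS d_NTR

theorem d_NF2 : T_FM2c :=
  Pool.Agent.H69.FC.pf_FM2c d_NF1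

theorem d_NC2 : T_CO2c :=
  Pool.Agent.H69.FC.pf_CO2c d_NF2

theorem d_NCO : T_CORc :=
  Pool.Agent.H68.FC.pf_CORc d_NF2


end Pool.Agent.H89.FC
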