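import Pool.Agent.H89.FC.Asm

/-!
# The fourth moment of the complete family: everything together
-/

set_option autoImplicit false

open NumberField
open scoped nonZeroDivisors

namespace Pool.Agent.H89.FC

theorem all :
    (∀ (K : Type) [Field K] [NumberField K] (σ : K →+* ℂ) (f : ℕ) (m : ℤ)
      (ψ : Ideal (𝓞 K) → ℂ), Module.finrank ℚ K = 2 → discr K < 0 → IsHecke K σ f m ψ →
      ∃ L : ℂ → ℂ, IsLFunction K ψ L) ∧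
    ∀ ε : ℝ, 0 < ε → ∃ (C : ℝ) (A : ℕ), ∀ (X : ℝ) (K : ℕ → Type)
      [∀ D, Field (K D)] [∀ D, NumberField (K D)] (σ : ∀ D, K D →+* ℂ) (S : Finset (Index K))
      (L : Index K → ℂ → ℂ), 1 ≤ X → Family X K σ S L →
      (∀ t : Index K → ℝ,
        ∑ x ∈ S, (‖L x (1 / 2 + t x * Complex.I)‖ / size x (t x) ^ A) ^ 4 ≤
          C * X ^ (3 / 2 + ε)) ∧
      (∀ η : ℝ, 0 ≤ η → η ≤ 3 / 8 →
        (∀ x ∈ S, ∃ t : ℝ, size x t ^ A * level x ^ η < ‖L x (1 / 2 + t * Complex.I)‖) →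
        (S.card : ℝ) ≤ C * X ^ (3 / 2 - 4 * η + ε)) ∧
      ∀ (η : ℝ) (T : Finset (ℕ × ℕ)), 0 ≤ η → η ≤ 1 / 4 →
        (∀ q ∈ T, ∃ x ∈ S, x.1 = q.1 ∧ x.2.1 = q.2 ∧ ∃ t : ℝ,
          size x t ^ A * level x ^ (1 / 8 + η) < ‖L x (1 / 2 + t * Complex.I)‖) →
        (T.card : ℝ) ≤ C * X ^ (1 - 4 * η + ε) :=
  fin d_AEXL d_NF2 d_NCO d_NC2

end Pool.Agent.H89.FC
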