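import Pool.Agent.H89.FM.Targets2
import Pool.Agent.H61.FM.Targets
import Pool.Agent.H95.CF.Defs

/-!
# The fourth moment of the complete family of self-dual Hecke `L`-functions of imaginary quadratic
fields: shared definitions

`K` is an imaginary quadratic field of discriminant `-D`, `f` the conductor and `2 m` the weight at
infinity of a character. The form of the character has level `D f ^ 2` and weight `2 |m| + 1`.
-/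

set_option autoImplicit false

open MeasureTheory Set Filter NumberField
open scoped Real nonZeroDivisors Matrix MatrixGroups

namespace Pool.Agent.H89.FC

open Pool.Agent.H31.CN Pool.Agent.H89.FM Pool.Agent.H61.FM

/-! ### The kernel of weight `2 m` -/

/-- the test function `θ (θ + 1) (w ^ m exp (- 2 π w))`, `θ = w d/dw` -/
noncomputable def phm (m : ℕ) (w : ℂ) : ℂ :=
  (((m : ℂ) - 2 * π * w) ^ 2 + m - 4 * π * w) * w ^ m * Complex.exp (-(2 * π * w))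

/-- the integrand of the kernel -/
noncomputable def Kmi (m : ℕ) (τ s r : ℂ) (u : ℝ) : ℂ :=
  (phm m (τ * u * r) * (τ * u) ^ s + phm m (τ⁻¹ * u * r) * (τ⁻¹ * u) ^ (1 - s)) / u

/-- the kernel of the completed Epstein zeta function of weight `2 m`, with rotation by `τ` -/
noncomputable def Kmc (m : ℕ) (τ s r : ℂ) : ℂ := ∫ u in Ioi (1 : ℝ), Kmi m τ s r u

/-- the unit of the rotation -/
noncomputable def tum (m : ℕ) (t : ℝ) : ℂ :=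
  Complex.exp (((Real.arctan (t / (m + 1)) : ℝ) : ℂ) * Complex.I)

/-- the size of the Gamma factor -/
noncomputable def cG (m : ℕ) (t : ℝ) : ℝ :=
  (m.factorial : ℝ) / (2 * π) ^ m * (Real.sqrt (((m : ℝ) + 1) ^ 2 + t ^ 2) / (m + 1)) ^ (m + 1) *
    Real.exp (-(t * Real.arctan (t / (m + 1))))

/-- the factor of the completed `L`-function -/
noncomputable def gM (m : ℕ) (s : ℂ) : ℂ :=
  s * (s - 1) * Complex.Gamma (s + m) * (2 * (π : ℂ)) ^ (-(s + m))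

/-! ### Epstein zeta functions of weight `2 m` -/

/-- the angular factor, with complex parameters -/
noncomputable def an (x y : ℂ) (v : ℤ × ℤ) : ℂ :=
  ((v.1 : ℂ) + v.2 * (x + y * Complex.I)) / ((v.1 : ℂ) + v.2 * (x - y * Complex.I))

open Classical in
/-- the completed Epstein zeta function of weight `2 m`, times `s (s - 1)`, of the lattice `L` with
the metric `qz x y / n` -/
noncomputable def Em (m : ℤ) (s : ℂ) (n : ℕ) (L : AddSubgroup (ℤ × ℤ)) (x y : ℝ) : ℂ :=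
  ∑' v : ℤ × ℤ, if v ∈ L ∧ v ≠ 0 then
    an x y v ^ m * Kmc m.natAbs 1 s ((qz x y v / n : ℝ) : ℂ) else 0

open Classical in
/-- the twisted sum of the form `Q` -/
noncomputable def Bm (m : ℤ) (s : ℂ) (α : ℕ → ℂ) (N : ℕ) (Q : QF) : ℂ :=
  ∑ n ∈ Sq N, α n * ∑ L ∈ (Ls n).filter (fun L => Dv n L Q), Em m s n L (zx Q) (zy Q)

/-- (TMm) the twisted second moment over the classes of forms, weight `2 m`. -/
def T_TMm : Prop :=
  ∀ ε : ℝ, 0 < ε → ∃ κ : ℝ, 0 < κ ∧ κ ≤ 1 / 8 ∧ ∃ δ : ℝ, 0 < δ ∧ ∃ (C : ℝ) (k : ℕ),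
    ∀ (m : ℤ) (s : ℂ) (Y : ℝ) (N : ℕ) (α : ℕ → ℂ) (S : Finset QF),
      |s.re - 1 / 2| ≤ κ → 1 ≤ Y → 1 ≤ N → (N : ℝ) ≤ Y ^ (1 + δ) → (∀ n, ‖α n‖ ≤ 1) →
      (∀ Q ∈ S, 0 < Q.1 ∧ Y ^ 2 / 4 ≤ dsc Q ∧ (dsc Q : ℝ) ≤ Y ^ 2) →
      (∀ Q ∈ S, ∀ Q' ∈ S, ∀ g : SL(2, ℤ), act Q g = Q' → Q = Q') →
      ∑ Q ∈ S, ‖Bm m s α N Q‖ ^ 2 ≤
        C * (1 + |s.im| + |(m : ℝ)|) ^ k * cG m.natAbs s.im ^ 2 * Y ^ (3 + ε) * N

/-! ### The characters -/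

section

variable (K : Type) [Field K] [NumberField K]

/-- the infinity type -/
noncomputable def ty (σ : K →+* ℂ) (a : 𝓞 K) : ℂ := σ (a : K) / (starRingEnd ℂ) (σ (a : K))

/-- `ψ` is a primitive Hecke character of `K` of conductor `f`, which is trivial on the ideals of
`ℚ` prime to `f`, with the infinity type `(a / |a|) ^ (2 m)` -/
structure RCh (σ : K →+* ℂ) (f : ℕ) (m : ℤ) (ψ : Ideal (𝓞 K) → ℂ) : Prop where
  pos : 0 < f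
  one : ψ ⊤ = 1
  mul : ∀ I J, ψ (I * J) = ψ I * ψ J
  van : ∀ I, ¬ Pool.Agent.H95.CF.Pr K f I → ψ I = 0
  abs : ∀ I, Pool.Agent.H95.CF.Pr K f I → ‖ψ I‖ = 1
  prc : ∀ a : 𝓞 K, Pool.Agent.H95.CF.Rat K f f a → ψ (Ideal.span {a}) = ty K σ a ^ m
  prim : ∀ p : ℕ, p.Prime → p ∣ f → ∃ a : 𝓞 K, Pool.Agent.H95.CF.Rat K f (f / p) a ∧
    ψ (Ideal.span {a}) ≠ ty K σ a ^ m

variable {K}

/-- `F` is the `L`-function of `ψ`, holomorphic away from `1` -/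
def IsL (ψ : Ideal (𝓞 K) → ℂ) (F : ℂ → ℂ) : Prop :=
  DifferentiableOn ℂ F {1}ᶜ ∧ ∀ s : ℂ, 1 < s.re →
    HasSum (fun I : (Ideal (𝓞 K))⁰ => ψ I * (Ideal.absNorm (I : Ideal (𝓞 K)) : ℂ) ^ (-s)) (F s)

/-- the coefficients of the `L`-function -/
noncomputable def lc (ψ : Ideal (𝓞 K) → ℂ) (n : ℕ) : ℂ := ∑ I ∈ Nn K n, ψ I

/-- the partial sums of the coefficients -/
noncomputable def Sc (ψ : Ideal (𝓞 K) → ℂ) (x : ℝ) : ℂ := ∑ n ∈ Finset.Icc 1 ⌊x⌋₊, lc ψ n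

end

/-! ### Families -/

/-- the indices of the family: discriminant, conductor, weight, character -/
abbrev IX (K : ℕ → Type) [∀ D, Field (K D)] [∀ D, NumberField (K D)] : Type :=
  Σ D : ℕ, ℕ × ℤ × (Ideal (𝓞 (K D)) → ℂ)

/-- a finite family of characters with their `L`-functions, with levels in `[a, b]` -/
structure Fam (K : ℕ → Type) [∀ D, Field (K D)] [∀ D, NumberField (K D)]
    (σ : ∀ D, K D →+* ℂ) (S : Finset (IX K)) (F : IX K → ℂ → ℂ) (a b : ℝ) : Prop where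
  q : ∀ x ∈ S, a ≤ (x.1 : ℝ) * (x.2.1 : ℝ) ^ 2 ∧ (x.1 : ℝ) * (x.2.1 : ℝ) ^ 2 ≤ b
  iq : ∀ x ∈ S, IQ (K x.1) x.1
  ch : ∀ x ∈ S, RCh (K x.1) (σ x.1) x.2.1 x.2.2.1 x.2.2.2
  lf : ∀ x ∈ S, IsL x.2.2.2 (F x)

/-- (TMFc) the twisted second moment of the `L`-functions of weight `2 m`: the interface between
the algebraic part and the analytic part. -/
def T_TMFc : Prop :=
  ∀ ε : ℝ, 0 < ε → ∃ κ : ℝ, 0 < κ ∧ κ ≤ 1 / 8 ∧ ∃ δ : ℝ, 0 < δ ∧ ∃ (C : ℝ) (k : ℕ), 0 < C ∧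
    ∀ (m : ℤ) (s : ℂ) (X : ℝ) (N : ℕ) (α : ℕ → ℂ) (K : ℕ → Type) [∀ D, Field (K D)]
      [∀ D, NumberField (K D)] (σ : ∀ D, K D →+* ℂ) (S : Finset (IX K)) (F : IX K → ℂ → ℂ),
      |s.re - 1 / 2| ≤ κ → 1 ≤ X → 1 ≤ N → (N : ℝ) ≤ X ^ ((1 + δ) / 2) → (∀ n, ‖α n‖ ≤ 1) →
      Fam K σ S F (X / 4) X → (∀ x ∈ S, x.2.2.1 = m) →
      ∑ x ∈ S, ‖∑ n ∈ Sq N, α n * lc x.2.2.2 n‖ ^ 2 * ‖F x s‖ ^ 2 ≤
        C * (1 + |s.im| + |(m : ℝ)|) ^ k * X ^ (3 / 2 + ε) * N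

/-- (LFKc) the `L`-function as a rapidly convergent series. -/
def T_LFKc : Prop :=
  ∀ (K : Type) [Field K] [NumberField K] (σ : K →+* ℂ) (D f : ℕ) (m : ℤ) (ψ : Ideal (𝓞 K) → ℂ)
    (F : ℂ → ℂ), IQ K D → RCh K σ f m ψ → IsL ψ F → ∀ τ s : ℂ, ‖τ‖ = 1 → 0 < τ.re → 0 < s.re →
    s ≠ 1 →
      HasSum (fun J : (Ideal (𝓞 K))⁰ => ψ J *
        Kmc m.natAbs τ s (((nm J : ℝ) / (f * Real.sqrt D) : ℝ) : ℂ))
        (gM m.natAbs s * ((f : ℂ) ^ 2 * D) ^ (s / 2) * F s)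

/-- (EXLc) the `L`-functions exist. -/
def T_EXLc : Prop :=
  ∀ (K : Type) [Field K] [NumberField K] (σ : K →+* ℂ) (D f : ℕ) (m : ℤ) (ψ : Ideal (𝓞 K) → ℂ),
    IQ K D → RCh K σ f m ψ → ∃ F : ℂ → ℂ, IsL ψ F

/-- (HBDc) the number of the characters of given discriminant, conductor and weight. -/
def T_HBDc : Prop :=
  ∀ ε : ℝ, 0 < ε → ∃ C : ℝ, 0 < C ∧ ∀ (K : Type) [Field K] [NumberField K] (σ : K →+* ℂ)
    (D f : ℕ) (m : ℤ) (Ψ : Finset (Ideal (𝓞 K) → ℂ)), IQ K D → (∀ ψ ∈ Ψ, RCh K σ f m ψ) →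
    (Ψ.card : ℝ) ≤ C * ((D : ℝ) * (f : ℝ) ^ 2) ^ (1 / 2 + ε)

/-- (GMLc) the lower bound for the Gamma factor. -/
def T_GMLc : Prop :=
  ∃ (C : ℝ) (k : ℕ), 0 < C ∧ ∀ (m : ℕ) (s : ℂ), |s.re - 1 / 2| ≤ 1 / 8 →
    cG m s.im ≤ C * (1 + |s.im| + m) ^ k * ‖gM m s‖

/-- (KRBc) bounds for the kernel. -/
def T_KRBc : Prop :=
  ∃ (C : ℝ) (k : ℕ) (c : ℝ), 0 < C ∧ 0 < c ∧ ∀ (m : ℕ) (s : ℂ), |s.re - 1 / 2| ≤ 1 / 8 →
    ContinuousOn (deriv fun r : ℝ => Kmc m (tum m s.im) s (r : ℂ)) (Ioi 0) ∧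
      ∀ r : ℝ, 0 < r → DifferentiableAt ℝ (fun r : ℝ => Kmc m (tum m s.im) s (r : ℂ)) r ∧
        ‖Kmc m (tum m s.im) s (r : ℂ)‖ ≤ C * (1 + |s.im| + m) ^ k * cG m s.im *
          (r ^ (-s.re) + r ^ (s.re - 1)) * Real.exp (-(c * r / (1 + |s.im| + m))) ∧
        ‖deriv (fun r : ℝ => Kmc m (tum m s.im) s (r : ℂ)) r‖ ≤
          C * (1 + |s.im| + m) ^ k * cG m s.im *
          (r ^ (-s.re - 1) + r ^ (s.re - 2)) * Real.exp (-(c * r / (1 + |s.im| + m)))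

end Pool.Agent.H89.FC
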