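import Pool.Agent.H89.FC.Defs

/-!
# Chapter II with weights: Epstein zeta functions with angular factors, twisted second moment
-/

set_option autoImplicit false

open MeasureTheory Set Filter
open scoped Real Matrix MatrixGroups

namespace Pool.Agent.H89.FC

open Pool.Agent.H31.CN Pool.Agent.H89.FM

/-! ### Definitions of the chapter -/

open Classical in
/-- the rotated completed Epstein zeta function of weight `2 m` with complex parameters -/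
noncomputable def Ecm (m : ℤ) (s : ℂ) (n : ℕ) (L : AddSubgroup (ℤ × ℤ)) (x y : ℂ) : ℂ :=
  ∑' v : ℤ × ℤ, if v ∈ L ∧ v ≠ 0 then
    an x y v ^ m * Kmc m.natAbs (tum m.natAbs s.im) s (qc x y v / n) else 0

open Classical in
/-- the terms of the function `Psm` -/
noncomputable def psm (m : ℤ) (n : ℕ) (L : AddSubgroup (ℤ × ℤ)) (x y : ℝ) (w : ℂ) (v : ℤ × ℤ) : ℂ :=
  if v ∈ L ∧ v ≠ 0 then an x y v ^ m * phm m.natAbs (w * ((qz x y v / n : ℝ) : ℂ)) else 0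

/-- the function with the inversion formula -/
noncomputable def Psm (m : ℤ) (n : ℕ) (L : AddSubgroup (ℤ × ℤ)) (x y : ℝ) (w : ℂ) : ℂ :=
  ∑' v : ℤ × ℤ, psm m n L x y w v

open Classical in
/-- the terms of the theta function with an angular factor -/
noncomputable def thm (m : ℤ) (n : ℕ) (L : AddSubgroup (ℤ × ℤ)) (x y : ℝ) (w : ℂ) (v : ℤ × ℤ) : ℂ :=
  if v ∈ L ∧ v ≠ 0 then an x y v ^ m * (w * ((qz x y v / n : ℝ) : ℂ)) ^ m.natAbs *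
    Complex.exp (-(2 * π * w * ((qz x y v / n : ℝ) : ℂ))) else 0

/-- the theta function with an angular factor, for `m ≠ 0` -/
noncomputable def ThM (m : ℤ) (n : ℕ) (L : AddSubgroup (ℤ × ℤ)) (x y : ℝ) (w : ℂ) : ℂ :=
  ∑' v : ℤ × ℤ, thm m n L x y w v

/-! ### The kernel -/

/-- (KCBm) the bound of the kernel. -/
def T_KCBm : Prop :=
  ∃ (C : ℝ) (k : ℕ), 0 ≤ C ∧ ∀ (m : ℕ) (κ : ℝ) (s r : ℂ), 0 ≤ κ → κ ≤ 1 / 8 →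
    |s.re - 1 / 2| ≤ κ → 0 < r.re → 10 * (1 + |s.im| + m) * |r.im| ≤ r.re →
    IntegrableOn (Kmi m (tum m s.im) s r) (Ioi 1) ∧
    ‖Kmc m (tum m s.im) s r‖ ≤ C * (1 + |s.im| + m) ^ k * cG m s.im *
      r.re ^ (-(1 / 2 + κ)) * Real.exp (-(r.re / (1 + |s.im| + m)))

/-- (KCDm) the kernel is holomorphic. -/
def T_KCDm : Prop :=
  ∀ (m : ℕ) (s r : ℂ), |s.re - 1 / 2| ≤ 1 / 8 → 0 < r.re → 10 * (1 + |s.im| + m) * |r.im| ≤ r.re →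
    DifferentiableAt ℂ (fun r => Kmc m (tum m s.im) s r) r

/-- (ANB) the angular factor. -/
def T_ANB : Prop :=
  ∀ (ρ t : ℝ) (m : ℤ) (x y : ℂ) (v : ℤ × ℤ), 0 < ρ → Rg ρ (|t| + |(m : ℝ)|) x y → v ≠ 0 →
    (v.1 : ℂ) + v.2 * (x + y * Complex.I) ≠ 0 ∧ (v.1 : ℂ) + v.2 * (x - y * Complex.I) ≠ 0 ∧
    ‖an x y v ^ m‖ ≤ 3 ∧ DifferentiableAt ℂ (fun x' => an x' y v ^ m) x ∧
    DifferentiableAt ℂ (fun y' => an x y' v ^ m) y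

/-- (ECBm) the bound of the Epstein zeta functions. -/
def T_ECBm : Prop :=
  ∀ κ : ℝ, 0 < κ → κ ≤ 1 / 8 → ∃ (C : ℝ) (k : ℕ), 0 ≤ C ∧
    ∀ (ρ : ℝ) (m : ℤ) (n : ℕ) (L : AddSubgroup (ℤ × ℤ)) (s x y : ℂ), 0 < ρ → 1 ≤ n → L ∈ Ls n →
    |s.re - 1 / 2| ≤ κ → Rg ρ (|s.im| + |(m : ℝ)|) x y →
    ‖Ecm m s n L x y‖ ≤ C * (1 + |s.im| + |(m : ℝ)|) ^ k * cG m.natAbs s.im *
      (n / mn ρ L) ^ (1 / 2 + κ)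

/-- (ECCm) the Epstein zeta functions are continuous, and holomorphic in each variable. -/
def T_ECCm : Prop :=
  ∀ (ρ : ℝ) (m : ℤ) (n : ℕ) (L : AddSubgroup (ℤ × ℤ)) (s : ℂ), 0 < ρ → 1 ≤ n → L ∈ Ls n →
    |s.re - 1 / 2| ≤ 1 / 8 →
    ContinuousOn (fun p : ℂ × ℂ => Ecm m s n L p.1 p.2)
      {p | Rg ρ (|s.im| + |(m : ℝ)|) p.1 p.2} ∧
    ∀ x y : ℂ, Rg ρ (|s.im| + |(m : ℝ)|) x y →
      DifferentiableAt ℂ (fun x' => Ecm m s n L x' y) x ∧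
      DifferentiableAt ℂ (fun y' => Ecm m s n L x y') y

/-! ### Theta functions -/

/-- (THX) the inversion of the theta function of a lattice with a harmonic polynomial. -/
def T_THLm : Prop :=
  ∀ (m : ℤ) (n : ℕ) (L : AddSubgroup (ℤ × ℤ)) (x y u : ℝ), m ≠ 0 → 1 ≤ n → L ∈ Ls n → 0 < y →
    0 < u → Summable (fun v => ‖thm m n L x y u v‖) ∧
    ThM m n L x y ((u⁻¹ : ℝ) : ℂ) = u * ThM m n L x y u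

/-- (THHm) the inversion in the half plane. -/
def T_THHm : Prop :=
  ∀ (m : ℤ) (n : ℕ) (L : AddSubgroup (ℤ × ℤ)) (x y : ℝ), m ≠ 0 → 1 ≤ n → L ∈ Ls n → 0 < y →
    DifferentiableOn ℂ (ThM m n L x y) {w | 0 < w.re} ∧
    ∀ w : ℂ, 0 < w.re → ThM m n L x y w⁻¹ = w * ThM m n L x y w

/-- (INVm) the inversion of the function `Psm`. -/
def T_INVm : Prop :=
  ∀ (m : ℤ) (n : ℕ) (L : AddSubgroup (ℤ × ℤ)) (x y : ℝ), 1 ≤ n → L ∈ Ls n → 0 < y →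
    DifferentiableOn ℂ (Psm m n L x y) {w | 0 < w.re} ∧
    ∀ w : ℂ, 0 < w.re → Psm m n L x y w⁻¹ = w * Psm m n L x y w

/-- (PSBm) the decay of the function `Psm`. -/
def T_PSBm : Prop :=
  ∀ (m : ℤ) (n : ℕ) (L : AddSubgroup (ℤ × ℤ)) (x y K : ℝ), 1 ≤ n → L ∈ Ls n → 0 < y → 0 < K →
    ∃ C c : ℝ, 0 ≤ C ∧ 0 < c ∧
    ∀ w : ℂ, 1 ≤ ‖w‖ → ‖w‖ ≤ K * w.re → Summable (fun v => ‖psm m n L x y w v‖) ∧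
      ∑' v : ℤ × ℤ, ‖psm m n L x y w v‖ ≤ C * Real.exp (-(c * ‖w‖))

open Classical in
/-- (ROTm) the Epstein zeta function does not depend on the rotation. -/
def T_ROTm : Prop :=
  ∀ (m : ℤ) (n : ℕ) (L : AddSubgroup (ℤ × ℤ)) (x y : ℝ) (s τ : ℂ), 1 ≤ n → L ∈ Ls n → 0 < y →
    ‖τ‖ = 1 → 0 < τ.re →
    HasSum (fun v : ℤ × ℤ => if v ∈ L ∧ v ≠ 0 then
      an x y v ^ m * Kmc m.natAbs τ s ((qz x y v / n : ℝ) : ℂ) else 0) (Em m s n L x y)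

/-- (MELm) the Epstein zeta function as a Mellin transform. -/
def T_MELm : Prop :=
  ∀ (m : ℤ) (n : ℕ) (L : AddSubgroup (ℤ × ℤ)) (x y : ℝ) (s : ℂ), 1 ≤ n → L ∈ Ls n → 0 < y →
    IntegrableOn (fun u : ℝ => Psm m n L x y u * (u : ℂ) ^ (s - 1)) (Ioi 0) ∧
    Em m s n L x y = ∫ u in Ioi (0 : ℝ), Psm m n L x y u * (u : ℂ) ^ (s - 1)

open Classical in
/-- (EZAm) the completed Epstein zeta function: holomorphy, and the series. -/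
def T_EZAm : Prop :=
  ∀ (m : ℤ) (n : ℕ) (L : AddSubgroup (ℤ × ℤ)) (x y : ℝ), 1 ≤ n → L ∈ Ls n → 0 < y →
    (Differentiable ℂ fun s : ℂ => Em m s n L x y) ∧
    ∀ s : ℂ, 1 < s.re → ∃ a : ℂ, HasSum (fun v : ℤ × ℤ => if v ∈ L ∧ v ≠ 0 then
      an x y v ^ m * (((qz x y v / n : ℝ)) : ℂ) ^ (-s) else 0) a ∧
      Em m s n L x y = gM m.natAbs s * a

/-! ### Twisted sums -/

open Classical in
/-- (HECm) the Hecke relation. -/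
def T_HECm : Prop :=
  ∀ (m : ℤ) (n g : ℕ) (L' : AddSubgroup (ℤ × ℤ)) (x y : ℝ) (s : ℂ), Squarefree (n * g) →
    L' ∈ Ls n → 0 < y →
    ∑ L ∈ (Ls (n * g)).filter (fun L => L ≤ L'), Em m s (n * g) L x y =
      (∑ k ∈ g.divisors, (k : ℂ) ^ (1 - s) * ((g / k : ℕ) : ℂ) ^ s) * Em m s n L' x y

/-- (EXPm) the expansion of the twisted sums. -/
def T_EXPm : Prop :=
  ∀ κ : ℝ, 0 < κ → κ ≤ 1 / 8 → ∃ C : ℝ, 0 ≤ C ∧ ∀ (m : ℤ) (s : ℂ) (N : ℕ) (α : ℕ → ℂ),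
    |s.re - 1 / 2| ≤ κ → 1 ≤ N → (∀ n, ‖α n‖ ≤ 1) → ∃ β : ℕ → ℂ,
      (∀ n ∈ Sq N, ‖β n‖ ≤ C * ((N : ℝ) / n) ^ (1 / 2 + 2 * κ)) ∧
      ∀ Q : QF, 0 < Q.1 → 0 < dsc Q → Bm m s α N Q =
        ∑ n ∈ Sq N, ∑ L ∈ Ls n, β n / n * Em m s n L (zx Q) (zy Q) * (Rn n L Q : ℂ)

/-- (BIVm) the absolute values of the twisted sums are invariant. -/
def T_BIVm : Prop :=
  ∀ (m : ℤ) (s : ℂ) (α : ℕ → ℂ) (N : ℕ) (Q : QF) (g : SL(2, ℤ)), 0 < Q.1 → 0 < dsc Q →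
    0 < (act Q g).1 ∧ dsc (act Q g) = dsc Q ∧ ‖Bm m s α N (act Q g)‖ = ‖Bm m s α N Q‖

/-- (CELm) the twisted second moment over a cell. -/
def T_CELm : Prop :=
  ∀ ε : ℝ, 0 < ε → ∃ κ : ℝ, 0 < κ ∧ κ ≤ 1 / 8 ∧ ∃ δ : ℝ, 0 < δ ∧ δ ≤ 1 / 8 ∧ δ ≤ ε / 10 ∧
    ∃ (C : ℝ) (k : ℕ), 0 ≤ C ∧
    ∀ (m : ℤ) (s : ℂ) (Y ρ c₁ c₂ : ℝ) (P : ℝ × ℝ × ℝ) (N : ℕ) (α : ℕ → ℂ) (S : Finset QF),
      |s.re - 1 / 2| ≤ κ → 1 ≤ Y → 1 ≤ ρ → ρ ≤ Y → 1 ≤ N → (N : ℝ) ≤ Y ^ (1 + δ) →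
      (∀ n, ‖α n‖ ≤ 1) → Gd Y ρ P → |c₁| ≤ 4 * ρ → ρ / 5 ≤ c₂ → c₂ ≤ 2 * ρ →
      (∀ Q ∈ S, 0 < Q.1 ∧ 0 < dsc Q ∧ dq ρ P (rl Q) ≤ Y ^ (2 - 2 * δ) ∧
        5000 * (1 + |s.im| + |(m : ℝ)|) * |zx Q - c₁| ≤ ρ ∧
        5000 * (1 + |s.im| + |(m : ℝ)|) * |zy Q - c₂| ≤ ρ) →
      ∑ Q ∈ S, ‖Bm m s α N Q‖ ^ 2 ≤
        C * (1 + |s.im| + |(m : ℝ)|) ^ k * cG m.natAbs s.im ^ 2 * Y ^ (3 + ε) * ρ * N

/-- (BOXm) the twisted second moment over a box. -/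
def T_BOXm : Prop :=
  ∀ ε : ℝ, 0 < ε → ∃ κ : ℝ, 0 < κ ∧ κ ≤ 1 / 8 ∧ ∃ δ : ℝ, 0 < δ ∧ δ ≤ 1 / 8 ∧
    ∃ (C : ℝ) (k : ℕ), 0 ≤ C ∧
    ∀ (m : ℤ) (s : ℂ) (Y ρ : ℝ) (N : ℕ) (α : ℕ → ℂ) (S : Finset QF),
      |s.re - 1 / 2| ≤ κ → 1 ≤ Y → 1 ≤ ρ → ρ ≤ Y → 1 ≤ N → (N : ℝ) ≤ Y ^ (1 + δ) →
      (∀ n, ‖α n‖ ≤ 1) →
      (∀ Q ∈ S, Y < 2 * ρ * Q.1 ∧ ρ * Q.1 ≤ Y ∧ |(Q.2.1 : ℝ)| ≤ 3 * Y ∧
        Y ^ 2 / 4 ≤ dsc Q ∧ (dsc Q : ℝ) ≤ Y ^ 2) →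
      ∑ Q ∈ S, ‖Bm m s α N Q‖ ^ 2 ≤
        C * (1 + |s.im| + |(m : ℝ)|) ^ k * cG m.natAbs s.im ^ 2 * Y ^ (3 + ε) * ρ * N

end Pool.Agent.H89.FC
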