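import Pool.Agent.H89.FC.Targets

/-!
# Chapter II with weights: the zero at `s = 0`
-/

set_option autoImplicit false

open MeasureTheory Set Filter
open scoped Real Matrix MatrixGroups

namespace Pool.Agent.H89.FC

open Pool.Agent.H31.CN Pool.Agent.H89.FM

/-- (EZ0) the completed Epstein zeta function of weight `2 m ≠ 0` vanishes at `0`. -/
def T_EZ0 : Prop :=
  ∀ (m : ℤ) (n : ℕ) (L : AddSubgroup (ℤ × ℤ)) (x y : ℝ), m ≠ 0 → 1 ≤ n → L ∈ Ls n → 0 < y →
    Em m 0 n L x y = 0

end Pool.Agent.H89.FC
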