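import Pool.Agent.H89.FC.Defs

/-!
# The analytic part: from the twisted second moment to the fourth moment, for the complete family
-/

set_option autoImplicit false

open MeasureTheory Set Filter NumberField
open scoped Real nonZeroDivisors

namespace Pool.Agent.H89.FC

open Pool.Agent.H31.CN Pool.Agent.H89.FM Pool.Agent.H61.FM

/-- (DVBc) the coefficients are small. -/
def T_DVBc : Prop :=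
  ∀ ε : ℝ, 0 < ε → ∃ C : ℝ, 0 < C ∧ ∀ (K : Type) [Field K] [NumberField K] (σ : K →+* ℂ)
    (D f : ℕ) (m : ℤ) (ψ : Ideal (𝓞 K) → ℂ), IQ K D → RCh K σ f m ψ →
    ∀ n : ℕ, 1 ≤ n → ‖lc ψ n‖ ≤ C * (n : ℝ) ^ ε

/-- (MULc) the coefficients are multiplicative. -/
def T_MULc : Prop :=
  ∀ (K : Type) [Field K] [NumberField K] (σ : K →+* ℂ) (f : ℕ) (m : ℤ) (ψ : Ideal (𝓞 K) → ℂ),
    RCh K σ f m ψ → lc ψ 1 = 1 ∧ ∀ a b : ℕ, a.Coprime b → lc ψ (a * b) = lc ψ a * lc ψ b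

/-- (MOSc) the second moment with partial sums of the coefficients. -/
def T_MOSc : Prop :=
  ∀ ε : ℝ, 0 < ε → ∃ κ : ℝ, 0 < κ ∧ κ ≤ 1 / 8 ∧ ∃ δ : ℝ, 0 < δ ∧ δ ≤ 1 ∧
    ∃ (C : ℝ) (k : ℕ), 0 < C ∧
    ∀ (m : ℤ) (s : ℂ) (X x : ℝ) (K : ℕ → Type) [∀ D, Field (K D)] [∀ D, NumberField (K D)]
      (σ : ∀ D, K D →+* ℂ) (S : Finset (IX K)) (F : IX K → ℂ → ℂ),
      |s.re - 1 / 2| ≤ κ → 1 ≤ X → 1 ≤ x → x ≤ X ^ ((1 + δ) / 2) → Fam K σ S F (X / 4) X →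
      (∀ y ∈ S, y.2.2.1 = m) →
      ∑ y ∈ S, ‖Sc y.2.2.2 x‖ ^ 2 * ‖F y s‖ ^ 2 ≤
        C * (1 + |s.im| + |(m : ℝ)|) ^ k * X ^ (3 / 2 + ε) * x ^ (1 + ε)

/-- (SPTc) the trivial bound for the partial sums. -/
def T_SPTc : Prop :=
  ∃ C : ℝ, 0 < C ∧ ∀ (K : Type) [Field K] [NumberField K] (σ : K →+* ℂ) (D f : ℕ) (m : ℤ)
    (ψ : Ideal (𝓞 K) → ℂ), IQ K D → RCh K σ f m ψ →
    Measurable (Sc ψ) ∧ ∀ x : ℝ, 1 ≤ x → ‖Sc ψ x‖ ≤ C * x ^ 2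

/-- (ABSc) Abel summation for sums over ideals. -/
def T_ABSc : Prop :=
  ∀ (K : Type) [Field K] [NumberField K] (σ : K →+* ℂ) (D f : ℕ) (m : ℤ)
    (ψ : Ideal (𝓞 K) → ℂ), IQ K D → RCh K σ f m ψ → ∀ (g : ℝ → ℂ) (M c : ℝ)
    (a : ℂ), 0 < c → ContinuousOn (deriv g) (Ici 1) →
    (∀ x : ℝ, 1 ≤ x → DifferentiableAt ℝ g x ∧ ‖g x‖ ≤ M * Real.exp (-(c * x)) ∧
      ‖deriv g x‖ ≤ M * Real.exp (-(c * x))) →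
    HasSum (fun J : (Ideal (𝓞 K))⁰ => ψ J * g (nm J)) a →
    IntegrableOn (fun x : ℝ => Sc ψ x * deriv g x) (Ioi 1) ∧
      a = -∫ x in Ioi (1 : ℝ), Sc ψ x * deriv g x

/-- (PBDc) the bound for the `L`-function by the partial sums of the coefficients. -/
def T_PBDc : Prop :=
  ∃ (C : ℝ) (k : ℕ) (c : ℝ), 0 < C ∧ 0 < c ∧ ∀ (K : Type) [Field K] [NumberField K]
    (σ : K →+* ℂ) (D f : ℕ) (m : ℤ) (ψ : Ideal (𝓞 K) → ℂ) (F : ℂ → ℂ),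
    IQ K D → RCh K σ f m ψ → IsL ψ F → ∀ (s : ℂ) (κ : ℝ),
    |s.re - 1 / 2| ≤ κ → κ ≤ 1 / 8 →
    IntegrableOn (fun x : ℝ => ‖Sc ψ x‖ * x ^ (-(3 / 2) + κ) *
      Real.exp (-(c * x / (f * Real.sqrt D * (1 + |s.im| + |(m : ℝ)|))))) (Ioi 1) ∧
    ‖F s‖ ≤ C * (1 + |s.im| + |(m : ℝ)|) ^ k * ((D : ℝ) * (f : ℝ) ^ 2) ^ κ *
      ∫ x in Ioi (1 : ℝ), ‖Sc ψ x‖ * x ^ (-(3 / 2) + κ) *
        Real.exp (-(c * x / (f * Real.sqrt D * (1 + |s.im| + |(m : ℝ)|))))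

/-- (TRBc) the trivial bound for the `L`-function. -/
def T_TRBc : Prop :=
  ∃ (C : ℝ) (k : ℕ), 0 < C ∧ ∀ (K : Type) [Field K] [NumberField K]
    (σ : K →+* ℂ) (D f : ℕ) (m : ℤ) (ψ : Ideal (𝓞 K) → ℂ) (F : ℂ → ℂ),
    IQ K D → RCh K σ f m ψ → IsL ψ F → ∀ s : ℂ,
    |s.re - 1 / 2| ≤ 1 / 8 →
    ‖F s‖ ≤ C * (1 + |s.im| + |(m : ℝ)|) ^ k * ((D : ℝ) * (f : ℝ) ^ 2) ^ 2

/-- (CRDc) the trivial bound for the size of a family of given weight. -/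
def T_CRDc : Prop :=
  ∃ C : ℝ, 0 < C ∧ ∀ (m : ℤ) (X : ℝ) (K : ℕ → Type) [∀ D, Field (K D)] [∀ D, NumberField (K D)]
      (σ : ∀ D, K D →+* ℂ) (S : Finset (IX K)) (F : IX K → ℂ → ℂ), 1 ≤ X → Fam K σ S F 0 X →
      (∀ y ∈ S, y.2.2.1 = m) → (S.card : ℝ) ≤ C * X ^ 3

/-- (MOTc) the second moment with partial sums of any length. -/
def T_MOTc : Prop :=
  ∀ ε : ℝ, 0 < ε → ∃ κ : ℝ, 0 < κ ∧ κ ≤ 1 / 8 ∧ ∀ c : ℝ, 0 < c → ∃ (C : ℝ) (k : ℕ), 0 < C ∧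
    ∀ (m : ℤ) (s : ℂ) (X x : ℝ) (K : ℕ → Type) [∀ D, Field (K D)] [∀ D, NumberField (K D)]
      (σ : ∀ D, K D →+* ℂ) (S : Finset (IX K)) (F : IX K → ℂ → ℂ),
      |s.re - 1 / 2| ≤ κ → 1 ≤ X → 1 ≤ x → Fam K σ S F (X / 4) X → (∀ y ∈ S, y.2.2.1 = m) →
      (∑ y ∈ S, ‖Sc y.2.2.2 x‖ ^ 2 * ‖F y s‖ ^ 2) *
        Real.exp (-(c * x / (Real.sqrt X * (1 + |s.im| + |(m : ℝ)|)))) ≤
        C * (1 + |s.im| + |(m : ℝ)|) ^ k * X ^ (3 / 2 + ε) * x ^ (1 + ε)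

/-- (FMSc) the fourth moment at a point near the critical line, fixed weight. -/
def T_FMSc : Prop :=
  ∀ ε : ℝ, 0 < ε → ∃ κ : ℝ, 0 < κ ∧ κ ≤ 1 / 8 ∧ ∃ (C : ℝ) (k : ℕ), 0 < C ∧
    ∀ (m : ℤ) (s : ℂ) (X : ℝ) (K : ℕ → Type) [∀ D, Field (K D)] [∀ D, NumberField (K D)]
      (σ : ∀ D, K D →+* ℂ) (S : Finset (IX K)) (F : IX K → ℂ → ℂ),
      |s.re - 1 / 2| ≤ κ → 1 ≤ X → Fam K σ S F (X / 4) X → (∀ y ∈ S, y.2.2.1 = m) →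
      ∑ y ∈ S, ‖F y s‖ ^ 4 ≤ C * (1 + |s.im| + |(m : ℝ)|) ^ k * X ^ (3 / 2 + ε)

/-- (FM1c) the fourth moment, all weights, levels in `[X / 4, X]`. -/
def T_FM1c : Prop :=
  ∀ ε : ℝ, 0 < ε → ∃ (C : ℝ) (A : ℕ), 0 < C ∧
    ∀ (X : ℝ) (K : ℕ → Type) [∀ D, Field (K D)] [∀ D, NumberField (K D)]
      (σ : ∀ D, K D →+* ℂ) (S : Finset (IX K)) (F : IX K → ℂ → ℂ) (t : IX K → ℝ),
      1 ≤ X → Fam K σ S F (X / 4) X →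
      ∑ y ∈ S, (‖F y (1 / 2 + t y * Complex.I)‖ / (1 + |t y| + |(y.2.2.1 : ℝ)|) ^ A) ^ 4 ≤
        C * X ^ (3 / 2 + ε)

/-- (FM2c) the fourth moment, all weights, all levels up to `X`. -/
def T_FM2c : Prop :=
  ∀ ε : ℝ, 0 < ε → ∃ (C : ℝ) (A : ℕ), 0 < C ∧
    ∀ (X : ℝ) (K : ℕ → Type) [∀ D, Field (K D)] [∀ D, NumberField (K D)]
      (σ : ∀ D, K D →+* ℂ) (S : Finset (IX K)) (F : IX K → ℂ → ℂ) (t : IX K → ℝ),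
      1 ≤ X → Fam K σ S F 0 X →
      ∑ y ∈ S, (‖F y (1 / 2 + t y * Complex.I)‖ / (1 + |t y| + |(y.2.2.1 : ℝ)|) ^ A) ^ 4 ≤
        C * X ^ (3 / 2 + ε)

/-- (CORc) for almost all pairs of a discriminant and a conductor all `L`-functions are small. -/
def T_CORc : Prop :=
  ∀ ε : ℝ, 0 < ε → ∃ (C : ℝ) (A : ℕ), 0 < C ∧
    ∀ (X η : ℝ) (K : ℕ → Type) [∀ D, Field (K D)] [∀ D, NumberField (K D)]
      (σ : ∀ D, K D →+* ℂ) (S : Finset (IX K)) (F : IX K → ℂ → ℂ) (T : Finset (ℕ × ℕ)),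
      1 ≤ X → 0 ≤ η → η ≤ 1 / 4 → Fam K σ S F 0 X →
      (∀ p ∈ T, ∃ y ∈ S, y.1 = p.1 ∧ y.2.1 = p.2 ∧ ∃ t : ℝ,
        (1 + |t| + |(y.2.2.1 : ℝ)|) ^ A * ((y.1 : ℝ) * (y.2.1 : ℝ) ^ 2) ^ (1 / 8 + η) <
          ‖F y (1 / 2 + t * Complex.I)‖) →
      (T.card : ℝ) ≤ C * X ^ (1 - 4 * η + ε)

/-- (CO2c) almost all `L`-functions are small. -/
def T_CO2c : Prop :=
  ∀ ε : ℝ, 0 < ε → ∃ (C : ℝ) (A : ℕ), 0 < C ∧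
    ∀ (X η : ℝ) (K : ℕ → Type) [∀ D, Field (K D)] [∀ D, NumberField (K D)]
      (σ : ∀ D, K D →+* ℂ) (S : Finset (IX K)) (F : IX K → ℂ → ℂ),
      1 ≤ X → 0 ≤ η → η ≤ 3 / 8 → Fam K σ S F 0 X →
      (∀ y ∈ S, ∃ t : ℝ,
        (1 + |t| + |(y.2.2.1 : ℝ)|) ^ A * ((y.1 : ℝ) * (y.2.1 : ℝ) ^ 2) ^ η <
          ‖F y (1 / 2 + t * Complex.I)‖) →
      (S.card : ℝ) ≤ C * X ^ (3 / 2 - 4 * η + ε)

end Pool.Agent.H89.FC
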